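import Pool.Agent.Lib.MP_a4c1f4_lc.SO.Spec

set_option autoImplicit false
set_option linter.all false

/-!
The offline flow on the path: the absolute values of the flow sum up to at most the cost of the
offline assignment.
-/

namespace Pool.Agent.MP_a4c1f4_lc.SO

open Finset MeasureTheory
open Pool.Agent.MP_a4c1f4_lc.Dbl.L (assigned cost Respects)

namespace OffAux

/-- The number of the edges to the right of `v`. -/
theorem sum_ind (E v : ℕ) (hv : v ≤ E) :
    ∑ k ∈ range E, (if v ≤ k then (1 : ℝ) else 0) = (E : ℝ) - v := by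
  induction E with
  | zero =>
    have : v = 0 := by omega
    subst this
    simp
  | succ n ih =>
    rw [Finset.sum_range_succ]
    by_cases h : v ≤ n
    · rw [ih h, if_pos h]
      push_cast
      ring
    · have hv' : v = n + 1 := by omega
      have h0 : ∑ k ∈ range n, (if v ≤ k then (1 : ℝ) else 0) = 0 := by
        apply Finset.sum_eq_zero
        intro k hk
        have : k < n := Finset.mem_range.mp hk
        rw [if_neg (by omega)]
      rw [h0, if_neg h, hv']
      push_cast
      ring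

/-- The indicators for two nodes in order. -/
theorem abs_le_case (v w k : ℕ) (h : w ≤ v) :
    |(if v ≤ k then (1 : ℝ) else 0) - (if w ≤ k then (1 : ℝ) else 0)| =
      (if w ≤ k then (1 : ℝ) else 0) - (if v ≤ k then (1 : ℝ) else 0) := by
  by_cases h1 : v ≤ k
  · rw [if_pos h1, if_pos (le_trans h h1)]
    simp
  · by_cases h2 : w ≤ k
    · rw [if_neg h1, if_pos h2]
      simp
    · rw [if_neg h1, if_neg h2]
      simp

theorem sum_abs_of_le (E v w : ℕ) (hv : v ≤ E) (hw : w ≤ E) (h : w ≤ v) :
    ∑ k ∈ range E, |(if v ≤ k then (1 : ℝ) else 0) - (if w ≤ k then (1 : ℝ) else 0)| =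
      |(v : ℝ) - w| := by
  rw [Finset.sum_congr rfl (fun k _ => abs_le_case v w k h), Finset.sum_sub_distrib,
    sum_ind E v hv, sum_ind E w hw]
  have : (w : ℝ) ≤ v := by exact_mod_cast h
  rw [abs_of_nonneg (by linarith)]
  ring

theorem sum_abs (E v w : ℕ) (hv : v ≤ E) (hw : w ≤ E) :
    ∑ k ∈ range E, |(if v ≤ k then (1 : ℝ) else 0) - (if w ≤ k then (1 : ℝ) else 0)| =
      |(v : ℝ) - w| := by
  rcases le_total w v with h | h
  · exact sum_abs_of_le E v w hv hw h
  · rw [abs_sub_comm (v : ℝ) w, ← sum_abs_of_le E w v hw hv h]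
    apply Finset.sum_congr rfl
    intro k _
    rw [abs_sub_comm]

theorem sum_single (v k : ℕ) :
    ∑ x ∈ range (k + 1), (if v = x then (1 : ℝ) else 0) = if v ≤ k then (1 : ℝ) else 0 := by
  rw [Finset.sum_ite_eq]
  by_cases h : v ≤ k
  · rw [if_pos h, if_pos (Finset.mem_range.mpr (by omega))]
  · rw [if_neg h, if_neg (by rw [Finset.mem_range]; omega)]

theorem term_cons {m : ℕ} (t : Fin m → ℕ) (j : Fin m) (τ : List (Fin m)) (v : ℕ) (l : List ℕ)
    (x : ℕ) :
    ((((v :: l).count x : ℕ) : ℝ) - (((j :: τ).countP (fun j => decide (t j = x)) : ℕ) : ℝ)) =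
      (((l.count x : ℕ) : ℝ) - ((τ.countP (fun j => decide (t j = x)) : ℕ) : ℝ)) +
        ((if v = x then (1 : ℝ) else 0) - (if t j = x then (1 : ℝ) else 0)) := by
  rw [List.count_cons, List.countP_cons]
  by_cases h1 : v = x <;> by_cases h2 : t j = x <;> simp [h1, h2] <;> ring

theorem fl_cons {m : ℕ} (t : Fin m → ℕ) (j : Fin m) (τ : List (Fin m)) (v : ℕ) (l : List ℕ)
    (k : ℕ) :
    fl (fun x => ((j :: τ).countP (fun j => decide (t j = x)) : ℝ)) (v :: l) k =
      fl (fun x => (τ.countP (fun j => decide (t j = x)) : ℝ)) l k +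
        ((if v ≤ k then (1 : ℝ) else 0) - (if t j ≤ k then (1 : ℝ) else 0)) := by
  unfold fl
  rw [Finset.sum_congr rfl (fun x _ => term_cons t j τ v l x), Finset.sum_add_distrib,
    Finset.sum_sub_distrib (fun x => if v = x then (1 : ℝ) else 0), sum_single, sum_single]

theorem main {m : ℕ} (E : ℕ) (t : Fin m → ℕ) : ∀ (l : List ℕ) (τ : List (Fin m)),
    (∀ j, j ∈ τ → t j ≤ E) → (∀ v, v ∈ l → v ≤ E) → τ.length = l.length →
    ∑ k ∈ range E, |fl (fun x => (τ.countP (fun j => decide (t j = x)) : ℝ)) l k| ≤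
      (List.zipWith (fun (v : ℕ) (j : Fin m) => |(v : ℝ) - (t j : ℝ)|) l τ).sum
  | [], [] => by
    intro _ _ _
    simp [fl]
  | [], (j :: τ) => by
    intro _ _ h
    simp at h
  | (v :: l), [] => by
    intro _ _ h
    simp at h
  | (v :: l), (j :: τ) => by
    intro h1 h2 h3
    have ih := main E t l τ (fun i hi => h1 i (List.mem_cons_of_mem _ hi))
      (fun i hi => h2 i (List.mem_cons_of_mem _ hi)) (by simpa using h3)
    have hv : v ≤ E := h2 v List.mem_cons_self
    have hj : t j ≤ E := h1 j List.mem_cons_self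
    rw [List.zipWith_cons_cons, List.sum_cons, ← sum_abs E v (t j) hv hj]
    calc ∑ k ∈ range E, |fl (fun x => ((j :: τ).countP (fun j => decide (t j = x)) : ℝ))
            (v :: l) k|
        ≤ ∑ k ∈ range E, (|(if v ≤ k then (1 : ℝ) else 0) - (if t j ≤ k then (1 : ℝ) else 0)| +
            |fl (fun x => (τ.countP (fun j => decide (t j = x)) : ℝ)) l k|) := by
          apply Finset.sum_le_sum
          intro k _
          rw [fl_cons]
          calc _ ≤ |fl (fun x => (τ.countP (fun j => decide (t j = x)) : ℝ)) l k| +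
                |(if v ≤ k then (1 : ℝ) else 0) - (if t j ≤ k then (1 : ℝ) else 0)| :=
                abs_add_le _ _
            _ = _ := by rw [add_comm]
      _ = _ := Finset.sum_add_distrib
      _ ≤ _ := by
          apply add_le_add_right
          exact ih

/-- The list of `O_Off` is coerced (`l` becomes a list of real numbers). -/
theorem coe_list (l : List ℕ) : (do
    let a ← l
    pure (a : ℝ)) = l.map (fun a : ℕ => (a : ℝ)) := by
  rw [List.map_eq_flatMap]
  rfl

end OffAux

/-- The clean form of `O_Off` (the list `l` is not coerced). -/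
theorem offClean (m E : ℕ) (t : Fin m → ℕ) (l : List ℕ) (τ : List (Fin m))
    (h1 : ∀ j, j ∈ τ → t j ≤ E) (h2 : ∀ v, v ∈ l → v ≤ E) (h3 : τ.length = l.length) :
    ∑ k ∈ range E, |fl (fun x => (τ.countP (fun j => decide (t j = x)) : ℝ)) l k| ≤
      (List.zipWith (fun (v : ℕ) (j : Fin m) => |(v : ℝ) - (t j : ℝ)|) l τ).sum :=
  OffAux.main E t l τ h1 h2 h3

theorem offP : O_Off := by
  intro m E t l τ h1 h2 h3
  rw [OffAux.coe_list, List.zipWith_map_left]
  exact OffAux.main E t l τ h1 h2 h3

end Pool.Agent.MP_a4c1f4_lc.SO
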