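import Pool.Agent.Lib.MP_a4c1f4_lc.SO.Spec

set_option autoImplicit false

/-!
Online matching on the line: one guess, no big gap.
-/

namespace Pool.Agent.MP_a4c1f4_lc.SO

open Finset MeasureTheory
open Pool.Agent.MP_a4c1f4_lc.Dbl.L (assigned cost Respects)

namespace BaseAux

theorem length_eq {m : ℕ} (τ : List (Fin m)) : τ.length = ∑ j, τ.count j := by
  induction τ with
  | nil => simp
  | cons i τ ih =>
    simp only [List.length_cons, List.count_cons, Finset.sum_add_distrib, ih]
    simp

theorem len_le {m : ℕ} {cap : Fin m → ℕ} {τ : List (Fin m)} (h : Respects cap τ) :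
    τ.length ≤ ∑ j, cap j := by
  rw [length_eq]
  exact Finset.sum_le_sum fun j _ => h j

theorem cap_pos {m : ℕ} {cap : Fin m → ℕ} {τ : List (Fin m)} (h : Respects cap τ) {j : Fin m}
    (hj : j ∈ τ) : 0 < cap j :=
  lt_of_lt_of_le (List.count_pos_iff.2 hj) (h j)

theorem countP_eq {m : ℕ} (t : Fin m → ℕ) (x : ℕ) (τ : List (Fin m)) :
    τ.countP (fun j => decide (t j = x)) = ∑ j ∈ univ.filter (fun j => t j = x), τ.count j := by
  induction τ with
  | nil => simp
  | cons i τ ih =>
    simp only [List.countP_cons, List.count_cons, Finset.sum_add_distrib, ih]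
    congr 1
    simp [Finset.sum_ite_eq, Finset.mem_filter]

theorem sum_countP {m : ℕ} (t : Fin m → ℕ) (E : ℕ) (τ : List (Fin m))
    (h : ∀ j, j ∈ τ → t j ≤ E) :
    ∑ x ∈ range (E + 1), τ.countP (fun j => decide (t j = x)) = τ.length := by
  induction τ with
  | nil => simp
  | cons i τ ih =>
    simp only [List.countP_cons, Finset.sum_add_distrib, List.length_cons]
    rw [ih (fun j hj => h j (List.mem_cons_of_mem _ hj))]
    congr 1
    have := h i (List.mem_cons_self ..)
    simp [Finset.sum_ite_eq, this]

theorem cost_cons {m : ℕ} (s : Fin m → ℝ) (x : ℝ) (l : List ℝ) (j : Fin m) (τ : List (Fin m)) :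
    cost s (x :: l) (j :: τ) = |x - s j| + cost s l τ := by
  simp [cost, Real.dist_eq]

theorem cost_nonneg {m : ℕ} (s : Fin m → ℝ) (l : List ℝ) (τ : List (Fin m)) :
    0 ≤ cost s l τ := by
  unfold cost
  induction l generalizing τ with
  | nil => simp
  | cons x l ih =>
    cases τ with
    | nil => simp
    | cons j τ =>
      simp only [List.zipWith_cons_cons, List.sum_cons]
      have := ih τ
      positivity

theorem zip_le {m : ℕ} (s : Fin m → ℝ) (cap : Fin m → ℕ) (η : ℝ) (v : ℝ → ℕ) (t : Fin m → ℕ)
    (h : ∀ x j, 0 < cap j → |(v x : ℝ) - (t j : ℝ)| ≤ 2 * |x - s j| / η + 1) :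
    ∀ (l : List ℝ) (τ : List (Fin m)), τ.length = l.length → (∀ j, j ∈ τ → 0 < cap j) →
    (List.zipWith (fun (v : ℕ) j => |(v : ℝ) - (t j : ℝ)|) (l.map v) τ).sum ≤
      2 * cost s l τ / η + l.length := by
  intro l
  induction l with
  | nil =>
    intro τ hτ _
    have : τ = [] := by simpa using hτ
    subst this
    simp [cost]
  | cons x l ih =>
    intro τ hτ hc
    cases τ with
    | nil => simp at hτ
    | cons j τ =>
      have hl : τ.length = l.length := by simpa using hτ
      have h1 := ih τ hl (fun i hi => hc i (List.mem_cons_of_mem _ hi))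
      have h2 := h x j (hc j (List.mem_cons_self ..))
      rw [cost_cons]
      simp only [List.map_cons, List.zipWith_cons_cons, List.sum_cons, List.length_cons]
      push_cast
      have e : 2 * (|x - s j| + cost s l τ) / η = 2 * |x - s j| / η + 2 * cost s l τ / η := by
        ring
      rw [e]
      linarith

theorem zip_cast {m : ℕ} (t : Fin m → ℕ) (l : List ℕ) (τ : List (Fin m)) :
    (List.zipWith (fun v j => |(v : ℝ) - (t j : ℝ)|) l τ).sum =
      (List.zipWith (fun (v : ℕ) j => |(v : ℝ) - (t j : ℝ)|) l τ).sum := by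
  congr 1
  induction l generalizing τ with
  | nil => rfl
  | cons x l ih =>
    cases τ with
    | nil => rfl
    | cons j τ =>
      have := ih τ
      simp only [List.zipWith_cons_cons]
      rw [← this]
      rfl

theorem mv_le {m : ℕ} (s : Fin m → ℝ) (cap : Fin m → ℕ) (η : ℝ) (E n0 : ℕ)
    (t : Fin m → ℕ) (near : ℝ → Fin m) (v : ℝ → ℕ) (y : List ℝ → Fin m → ℝ)
    (a : List ℕ → ℕ → ℝ)
    (hnear : ∀ x j, 0 < cap j → |x - s (near x)| ≤ |x - s j|)
    (hcell : ∀ x j, 0 < cap j → |s (near x) - s j| ≤ η * (|(t j : ℝ) - (v x : ℝ)| + 1))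
    (hmono : ∀ x l, (x :: l).length ≤ n0 → (x :: l).length ≤ ∑ j, cap j →
      ∀ j, y l j ≤ y (x :: l) j)
    (hzero : ∀ l, l.length ≤ n0 → l.length ≤ ∑ j, cap j → ∀ j, cap j = 0 → y l j = 0)
    (hsum : ∀ l, l.length ≤ n0 → l.length ≤ ∑ j, cap j → ∀ g : ℕ → ℝ,
      ∑ j, y l j * g (t j) = ∑ k ∈ range (E + 1), a (l.map v) k * g k)
    (hone : ∀ l, l.length ≤ n0 → l.length ≤ ∑ j, cap j → ∑ j, y l j = (l.length : ℝ)) :
    ∀ (l : List ℝ) (τ : List (Fin m)), τ.length = l.length → (∀ j, j ∈ τ → 0 < cap j) →
      l.length ≤ n0 → l.length ≤ ∑ j, cap j →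
      Mv s y l ≤ η * mvN E a (l.map v) + η * l.length + cost s l τ := by
  intro l
  induction l with
  | nil =>
    intro τ hτ _ _ _
    have : τ = [] := by simpa using hτ
    subst this
    simp [cost, Mv, mvN]
  | cons x l ih =>
    intro τ hτ hc hn hs
    cases τ with
    | nil => simp at hτ
    | cons j τ =>
      have hl : τ.length = l.length := by simpa using hτ
      have hn' : l.length ≤ n0 := by simp only [List.length_cons] at hn; omega
      have hs' : l.length ≤ ∑ j, cap j := by simp only [List.length_cons] at hs; omega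
      have h1 := ih τ hl (fun i hi => hc i (List.mem_cons_of_mem _ hi)) hn' hs'
      have h2 := hnear x j (hc j (List.mem_cons_self ..))
      have h3 : ∑ i, (y (x :: l) i - y l i) * |x - s i| ≤
          ∑ i, (y (x :: l) i - y l i) *
            ((|x - s (near x)| + η) + η * |(t i : ℝ) - (v x : ℝ)|) := by
        refine Finset.sum_le_sum fun i _ => ?_
        rcases Nat.eq_zero_or_pos (cap i) with h0 | h0
        · rw [hzero _ hn hs i h0, hzero _ hn' hs' i h0]
          simp
        · refine mul_le_mul_of_nonneg_left ?_ (sub_nonneg.2 (hmono x l hn hs i))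
          have h4 := hcell x i h0
          have h5 : |x - s i| ≤ |x - s (near x)| + |s (near x) - s i| := by
            have := abs_add_le (x - s (near x)) (s (near x) - s i)
            simpa using this
          nlinarith
      have h6 : ∑ i, (y (x :: l) i - y l i) *
            ((|x - s (near x)| + η) + η * |(t i : ℝ) - (v x : ℝ)|) =
          (|x - s (near x)| + η) * (∑ i, y (x :: l) i - ∑ i, y l i) +
          η * (∑ i, y (x :: l) i * |(t i : ℝ) - (v x : ℝ)| -
            ∑ i, y l i * |(t i : ℝ) - (v x : ℝ)|) := by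
        rw [← Finset.sum_sub_distrib, ← Finset.sum_sub_distrib, Finset.mul_sum, Finset.mul_sum,
          ← Finset.sum_add_distrib]
        refine Finset.sum_congr rfl fun i _ => ?_
        ring
      have h7 : ∑ k ∈ range (E + 1), (a (v x :: l.map v) k - a (l.map v) k) *
          |(k : ℝ) - (v x : ℝ)| =
          ∑ i, y (x :: l) i * |(t i : ℝ) - (v x : ℝ)| -
            ∑ i, y l i * |(t i : ℝ) - (v x : ℝ)| := by
        have e1 := hsum (x :: l) hn hs (fun k => |(k : ℝ) - (v x : ℝ)|)
        have e2 := hsum l hn' hs' (fun k => |(k : ℝ) - (v x : ℝ)|)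
        simp only [List.map_cons] at e1
        rw [e1, e2, ← Finset.sum_sub_distrib]
        refine Finset.sum_congr rfl fun k _ => ?_
        ring
      have h8 : ∑ i, y (x :: l) i - ∑ i, y l i = 1 := by
        rw [hone _ hn hs, hone _ hn' hs']
        simp
      rw [h6, h8, ← h7] at h3
      rw [cost_cons]
      simp only [Mv, mvN, List.map_cons, List.length_cons]
      push_cast
      nlinarith

end BaseAux

open BaseAux

theorem baseP (h1 : Core) (h2 : O_Nod) (h3 : O_Off) (h4 : O_Cel) (h5 : O_Shr) : O_Base := by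
  obtain ⟨C, hC, hcore⟩ := h1
  refine ⟨2 * Real.sqrt 2 * C + 1, by positivity, ?_⟩
  intro m s cap p Λ hΛ hng
  have hη : 0 < Λ / 2 ^ p := by positivity
  by_cases hz : ∀ j, cap j = 0
  · refine ⟨fun _ _ => 0, ⟨fun _ => rfl, ?_⟩, fun _ _ _ _ => le_rfl, ?_⟩
    · intro l hl
      have : ∑ j, cap j = 0 := by simp [hz]
      rw [this] at hl
      have h0 : l.length = 0 := by omega
      simp [h0]
    · intro l τ _ _ _
      have e : ∀ l : List ℝ, Mv s (fun _ _ => 0) l = 0 := by
        intro l
        induction l with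
        | nil => rfl
        | cons x l ih => simp [Mv, ih]
      rw [e]
      have := cost_nonneg s l τ
      positivity
  · obtain ⟨i0, hi0⟩ := not_forall.1 hz
    have hP : (univ.filter (fun j => 0 < cap j)).Nonempty :=
      ⟨i0, by simp [Nat.pos_of_ne_zero hi0]⟩
    have hS : 0 < ∑ j, cap j :=
      lt_of_lt_of_le (Nat.pos_of_ne_zero hi0)
        (Finset.single_le_sum (f := cap) (fun _ _ => Nat.zero_le _) (mem_univ i0))
    obtain ⟨j0, hj0, hmin⟩ := (univ.filter (fun j => 0 < cap j)).exists_min_image
      (fun j => ⌊s j / (Λ / 2 ^ p)⌋) hP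
    obtain ⟨j1, hj1, hmax⟩ := (univ.filter (fun j => 0 < cap j)).exists_max_image
      (fun j => ⌊s j / (Λ / 2 ^ p)⌋) hP
    have hnr : ∀ x : ℝ, ∃ i ∈ univ.filter (fun j => 0 < cap j),
        ∀ j ∈ univ.filter (fun j => 0 < cap j), |x - s i| ≤ |x - s j| := fun x =>
      (univ.filter (fun j => 0 < cap j)).exists_min_image (fun j => |x - s j|) hP
    choose near hnp hnm using hnr
    simp only [mem_filter, mem_univ, true_and] at hj0 hj1 hmin hmax hnp hnm
    set η : ℝ := Λ / 2 ^ p with hηdef
    set z0 : ℤ := ⌊s j0 / η⌋ with hz0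
    obtain ⟨E, hE⟩ : ∃ E : ℕ, ⌊s j1 / η⌋ = z0 + E := by
      refine ⟨(⌊s j1 / η⌋ - z0).toNat, ?_⟩
      have := hmin j1 hj1
      omega
    set t : Fin m → ℕ := fun j => nd η z0 (s j) with ht
    set v : ℝ → ℕ := fun x => nd η z0 (s (near x)) with hv
    have htE : ∀ j, 0 < cap j → t j ≤ E := by
      intro j hj
      refine (h4 η z0 (s j) (s j) hη (hmin j hj) (hmin j hj)).2.2 E ?_
      rw [← hE]
      exact hmax j hj
    obtain ⟨s1, s2, s3⟩ := h5 m s cap η z0 E htE
    have hwin := h2 m s cap p Λ z0 E hΛ hng hmin ⟨j0, hj0, rfl⟩ ⟨j1, hj1, hE⟩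
    obtain ⟨a, ha0, ha⟩ := hcore E (4 ^ (p + 1)) (2 * p + 2) (2 ^ p) (cc s cap η z0)
      (1 / ((E : ℝ) + 1)) (by positivity) (Nat.one_le_pow _ _ (by norm_num))
      (le_of_eq (by rw [show 2 * p + 2 = 2 * (p + 1) by ring, pow_mul]; norm_num))
      (by omega) hwin
    have hvE : ∀ l : List ℝ, ∀ w, w ∈ l.map v → w ≤ E := by
      intro l w hw
      obtain ⟨x, _, rfl⟩ := List.mem_map.1 hw
      exact htE _ (hnp x)
    have hA : ∀ l : List ℝ, l.length ≤ 2 ^ p → l.length ≤ ∑ j, cap j →
        (∀ k, k ≤ E → 0 ≤ a (l.map v) k ∧ a (l.map v) k ≤ cc s cap η z0 k) ∧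
        ∑ k ∈ range (E + 1), a (l.map v) k = (l.length : ℝ) := by
      intro l hl hs
      have := ha (l.map v) (hvE l) (by simpa using hl) (by rw [s3]; simpa using hs)
      exact ⟨this.1, by simpa using this.2.1⟩
    set y : List ℝ → Fin m → ℝ := fun l j => if l.length ≤ 2 ^ p then
      sh s cap η z0 (a (l.map v)) j else (l.length : ℝ) * cap j / (∑ i, cap i : ℕ) with hy
    have hyl : ∀ l : List ℝ, l.length ≤ 2 ^ p → y l = sh s cap η z0 (a (l.map v)) := by
      intro l hl
      funext j
      simp only [hy, if_pos hl]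
    have hmono : ∀ x l, (x :: l).length ≤ 2 ^ p → (x :: l).length ≤ ∑ j, cap j →
        ∀ j, y l j ≤ y (x :: l) j := by
      intro x l hn hs j
      have hn' : l.length ≤ 2 ^ p := by simp only [List.length_cons] at hn; omega
      rw [hyl _ hn, hyl _ hn']
      refine s2 _ _ ?_ j
      have := (ha ((x :: l).map v) (hvE _) (by simpa using hn) (by rw [s3]; simpa using hs)).2.2.1
      exact this (v x) (l.map v) (by simp)
    have hsum : ∀ l : List ℝ, l.length ≤ 2 ^ p → l.length ≤ ∑ j, cap j → ∀ g : ℕ → ℝ,
        ∑ j, y l j * g (t j) = ∑ k ∈ range (E + 1), a (l.map v) k * g k := by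
      intro l hn hs g
      rw [hyl _ hn]
      exact (s1 _ (hA l hn hs).1).2 g
    have hone : ∀ l : List ℝ, l.length ≤ 2 ^ p → l.length ≤ ∑ j, cap j →
        ∑ j, y l j = (l.length : ℝ) := by
      intro l hn hs
      have := hsum l hn hs (fun _ => 1)
      simp only [mul_one] at this
      rw [this]
      exact (hA l hn hs).2
    have hbd : ∀ l : List ℝ, l.length ≤ 2 ^ p → l.length ≤ ∑ j, cap j →
        ∀ j, 0 ≤ y l j ∧ y l j ≤ cap j := by
      intro l hn hs
      rw [hyl _ hn]
      exact (s1 _ (hA l hn hs).1).1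
    refine ⟨y, ⟨?_, ?_⟩, ?_, ?_⟩
    · intro j
      rw [hyl [] (by simp)]
      simp [sh, ha0]
    · intro l hl
      by_cases hn : l.length ≤ 2 ^ p
      · exact ⟨hbd l hn hl, hone l hn hl⟩
      · have hSr : (0 : ℝ) < ((∑ i, cap i : ℕ) : ℝ) := by exact_mod_cast hS
        have hlr : (l.length : ℝ) ≤ ((∑ i, cap i : ℕ) : ℝ) := by exact_mod_cast hl
        have hyn : ∀ j, y l j = (l.length : ℝ) * cap j / (∑ i, cap i : ℕ) := by
          intro j
          simp only [hy, if_neg hn]
        constructor
        · intro j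
          rw [hyn]
          refine ⟨by positivity, ?_⟩
          rw [div_le_iff₀ hSr]
          have : (0 : ℝ) ≤ cap j := Nat.cast_nonneg _
          nlinarith
        · simp only [hyn]
          rw [← Finset.sum_div, ← Finset.mul_sum]
          rw [div_eq_iff hSr.ne']
          push_cast
          ring
    · intro x l hg
      obtain ⟨hn, τ, hr, hcl⟩ := hg
      have hl : (x :: l).length = τ.length := List.Forall₂.length_eq hcl
      exact hmono x l hn (by rw [hl]; exact len_le hr)
    · intro l τ hn hr hcl
      have hl : l.length = τ.length := List.Forall₂.length_eq hcl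
      have hs : l.length ≤ ∑ j, cap j := by rw [hl]; exact len_le hr
      have hcp : ∀ j, j ∈ τ → 0 < cap j := fun j hj => cap_pos hr hj
      have hcn := cost_nonneg s l τ
      have hsq1 : 1 ≤ Real.sqrt ((p : ℝ) + 1) := by
        rw [Real.one_le_sqrt]
        have : (0 : ℝ) ≤ p := Nat.cast_nonneg _
        linarith
      have hmv := mv_le s cap η E (2 ^ p) t near v y a (fun x j hj => hnm x j hj)
        (fun x j hj => by
          have := (h4 η z0 (s (near x)) (s j) hη (hmin _ (hnp x)) (hmin j hj)).2.1
          rw [abs_sub_comm (t j : ℝ) (v x : ℝ)]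
          exact this)
        hmono
        (fun l hn hs j h0 => by
          have := hbd l hn hs j
          rw [h0] at this
          have h' : y l j ≤ 0 := by simpa using this.2
          exact le_antisymm h' this.1)
        hsum hone l τ hl.symm hcp hn hs
      rcases Nat.eq_zero_or_pos l.length with h0 | h0
      · have hl0 : l = [] := List.eq_nil_of_length_eq_zero h0
        subst hl0
        simp only [Mv]
        positivity
      have hz := zip_le s cap η v t (fun x j hj => by
        have e1 := (h4 η z0 (s (near x)) (s j) hη (hmin _ (hnp x)) (hmin j hj)).1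
        have e2 : |s (near x) - s j| ≤ 2 * |x - s j| := by
          have e3 := abs_add_le (s (near x) - x) (x - s j)
          have e4 := hnm x j hj
          rw [abs_sub_comm] at e4
          have e5 : s (near x) - x + (x - s j) = s (near x) - s j := by ring
          rw [e5] at e3
          linarith
        have e6 : |s (near x) - s j| / η ≤ 2 * |x - s j| / η :=
          div_le_div_of_nonneg_right e2 hη.le
        exact e1.trans (by linarith)) l τ hl.symm hcp
      have hoff := h3 m E t (l.map v) τ (fun j hj => htE j (hcp j hj)) (hvE l)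
        (by simp [hl])
      have hcr := (ha (l.map v) (hvE l) (by simpa using hn)
        (by rw [s3]; simpa using hs)).2.2.2
        (fun x => (τ.countP (fun j => decide (t j = x)) : ℝ))
        (fun x _ => by
          refine ⟨Nat.cast_nonneg _, ?_⟩
          rw [countP_eq]
          have : ∑ j ∈ univ.filter (fun j => t j = x), τ.count j ≤ cc s cap η z0 x :=
            Finset.sum_le_sum fun j _ => hr j
          exact_mod_cast this)
        (by
          have := sum_countP t E τ (fun j hj => htE j (hcp j hj))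
          rw [List.length_map, hl, ← this]
          push_cast
          rfl)
      have hb0 : 1 / ((E : ℝ) + 1) * E ≤ l.length := by
        have e1 : (1 : ℝ) ≤ l.length := by exact_mod_cast h0
        have e2 : (0 : ℝ) ≤ E := Nat.cast_nonneg _
        have e3 : 1 / ((E : ℝ) + 1) * E ≤ 1 := by
          rw [one_div, inv_mul_le_iff₀ (by positivity)]
          linarith
        linarith
      have hK : Real.sqrt ((2 * p + 2 : ℕ) : ℝ) = Real.sqrt 2 * Real.sqrt ((p : ℝ) + 1) := by
        rw [← Real.sqrt_mul (by norm_num)]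
        congr 1
        push_cast
        ring
      rw [hK] at hcr
      have hcr2 : mvN E a (l.map v) ≤ C * (Real.sqrt 2 * Real.sqrt ((p : ℝ) + 1)) *
          (2 * cost s l τ / η + 2 * l.length) := by
        refine hcr.trans (mul_le_mul_of_nonneg_left ?_ (by positivity))
        have e0 := hoff
        rw [zip_cast] at e0
        have e1 := e0.trans hz
        have e2 := add_le_add e1 hb0
        refine e2.trans (le_of_eq ?_)
        ring
      have hcr3 : η * mvN E a (l.map v) ≤ 2 * Real.sqrt 2 * C * Real.sqrt ((p : ℝ) + 1) *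
          (cost s l τ + η * l.length) := by
        have e1 := mul_le_mul_of_nonneg_left hcr2 hη.le
        refine e1.trans (le_of_eq ?_)
        field_simp
      have hfin : cost s l τ + η * l.length ≤ Real.sqrt ((p : ℝ) + 1) *
          (cost s l τ + η * l.length) := by
        have : 0 ≤ cost s l τ + η * l.length := by positivity
        nlinarith
      calc Mv s y l ≤ η * mvN E a (l.map v) + η * l.length + cost s l τ := hmv
        _ ≤ 2 * Real.sqrt 2 * C * Real.sqrt ((p : ℝ) + 1) * (cost s l τ + η * l.length) +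
            Real.sqrt ((p : ℝ) + 1) * (cost s l τ + η * l.length) := by linarith
        _ = _ := by ring

end Pool.Agent.MP_a4c1f4_lc.SO
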