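import Pool.Agent.Lib.MP_a4c1f4_lc.SO.Spec

set_option autoImplicit false
set_option linter.all false

/-!
Project SO, cells (helper77).
-/

namespace Pool.Agent.MP_a4c1f4_lc.SO

open Finset MeasureTheory
open Pool.Agent.MP_a4c1f4_lc.Dbl.L (assigned cost Respects)

namespace CelAux

theorem cast_nd (η : ℝ) (z0 : ℤ) (x : ℝ) (h : z0 ≤ ⌊x / η⌋) : (nd η z0 x : ℝ) = (⌊x / η⌋ : ℝ) - z0 := by
  have h1 : ((nd η z0 x : ℕ) : ℤ) = ⌊x / η⌋ - z0 := by
    unfold nd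
    exact Int.toNat_of_nonneg (by omega)
  have h2 : (((nd η z0 x : ℕ) : ℤ) : ℝ) = ((⌊x / η⌋ - z0 : ℤ) : ℝ) := by rw [h1]
  rw [Int.cast_natCast, Int.cast_sub] at h2
  exact h2

theorem fl_abs (a b : ℝ) : |((⌊a⌋ : ℝ)) - (⌊b⌋ : ℝ)| ≤ |a - b| + 1 ∧ |a - b| ≤ |((⌊a⌋ : ℝ)) - (⌊b⌋ : ℝ)| + 1 := by
  have h1 := Int.floor_le a
  have h2 := Int.lt_floor_add_one a
  have h3 := Int.floor_le b
  have h4 := Int.lt_floor_add_one b
  have h5 := le_abs_self (a - b)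
  have h6 := neg_abs_le (a - b)
  have h7 := le_abs_self ((⌊a⌋ : ℝ) - (⌊b⌋ : ℝ))
  have h8 := neg_abs_le ((⌊a⌋ : ℝ) - (⌊b⌋ : ℝ))
  constructor
  · rw [abs_le]
    constructor <;> linarith
  · rw [abs_le]
    constructor <;> linarith

end CelAux

open CelAux in
theorem celP : O_Cel := by
  intro η z0 x y hη hx hy
  have hcx := cast_nd η z0 x hx
  have hcy := cast_nd η z0 y hy
  have hd : (nd η z0 x : ℝ) - (nd η z0 y : ℝ) = (⌊x / η⌋ : ℝ) - (⌊y / η⌋ : ℝ) := by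
    rw [hcx, hcy]
    ring
  have hq : |x / η - y / η| = |x - y| / η := by
    rw [← sub_div, abs_div, abs_of_pos hη]
  obtain ⟨h1, h2⟩ := fl_abs (x / η) (y / η)
  rw [hq] at h1 h2
  refine ⟨by rw [hd]; exact h1, ?_, ?_⟩
  · rw [hd]
    have h3 := mul_le_mul_of_nonneg_left h2 hη.le
    have h4 : η * (|x - y| / η) = |x - y| := by
      field_simp
    rw [h4] at h3
    exact h3
  · intro E hE
    unfold nd
    omega

end Pool.Agent.MP_a4c1f4_lc.SO
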