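import Pool.Agent.Lib.MP_a4c1f4_lc.SO.Spec

set_option autoImplicit false

/-!
Online matching on the line with the ratio `O(√(log n))`, outer part: following the guesses.
-/

namespace Pool.Agent.MP_a4c1f4_lc.SO

open Finset MeasureTheory
open Pool.Agent.MP_a4c1f4_lc.Dbl.L (assigned cost Respects)

namespace CmbAux

open Classical in
/-- The combined family. -/
noncomputable def yy {m : ℕ} (s : Fin m → ℝ) (cap : Fin m → ℕ)
    (Y : ℤ → ℕ → List ℝ → Fin m → ℝ) (l : List ℝ) : Fin m → ℝ :=
  if 0 < opt s cap l then Y (gi (opt s cap l)) (gj l.length) l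
  else if h : ∃ τ : List (Fin m), τ.length = l.length ∧ Respects cap τ ∧ cost s l τ = opt s cap l
    then fun j => (h.choose.count j : ℝ) else fun _ => 0

theorem sum_count {m : ℕ} (τ : List (Fin m)) : ∑ j, (τ.count j : ℝ) = τ.length := by
  have h := Multiset.sum_count_eq_card (s := (univ : Finset (Fin m))) (m := (τ : Multiset (Fin m)))
    (fun a _ => mem_univ a)
  simp only [Multiset.coe_count, Multiset.coe_card] at h
  exact_mod_cast h

theorem yy_pos {m : ℕ} (s : Fin m → ℝ) (cap : Fin m → ℕ) (Y : ℤ → ℕ → List ℝ → Fin m → ℝ)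
    (l : List ℝ) (h : 0 < opt s cap l) :
    yy s cap Y l = Y (gi (opt s cap l)) (gj l.length) l := if_pos h

theorem yy_zero {m : ℕ} (s : Fin m → ℝ) (cap : Fin m → ℕ) (Y : ℤ → ℕ → List ℝ → Fin m → ℝ)
    (l : List ℝ) (h : ¬ 0 < opt s cap l)
    (hh : ∃ τ : List (Fin m), τ.length = l.length ∧ Respects cap τ ∧ cost s l τ = opt s cap l) :
    ∃ τ : List (Fin m), τ.length = l.length ∧ Respects cap τ ∧ cost s l τ = opt s cap l ∧
      yy s cap Y l = fun j => (τ.count j : ℝ) := by
  refine ⟨hh.choose, hh.choose_spec.1, hh.choose_spec.2.1, hh.choose_spec.2.2, ?_⟩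
  unfold yy
  rw [if_neg h, dif_pos hh]

theorem fam {m : ℕ} (h2 : O_Opt) (s : Fin m → ℝ) (cap : Fin m → ℕ)
    (Y : ℤ → ℕ → List ℝ → Fin m → ℝ) (hY : ∀ i j, Fam cap (Y i j)) : Fam cap (yy s cap Y) := by
  have hopt := h2 m s cap
  constructor
  · intro j
    by_cases h : 0 < opt s cap []
    · rw [yy_pos s cap Y [] h]
      exact (hY _ _).1 j
    · obtain ⟨τ, hl, -, -, e⟩ := yy_zero s cap Y [] h (hopt.1 [] (by simp))
      rw [e]
      have : τ = [] := List.length_eq_zero_iff.1 (by simpa using hl)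
      simp [this]
  · intro l hl
    by_cases h : 0 < opt s cap l
    · rw [yy_pos s cap Y l h]
      exact (hY _ _).2 l hl
    · obtain ⟨τ, hτ, hr, -, e⟩ := yy_zero s cap Y l h (hopt.1 l hl)
      rw [e]
      refine ⟨fun j => ⟨Nat.cast_nonneg _, ?_⟩, ?_⟩
      · show (τ.count j : ℝ) ≤ (cap j : ℝ)
        exact_mod_cast hr j
      · show ∑ j, (τ.count j : ℝ) = (l.length : ℝ)
        rw [sum_count, hτ]

theorem dl_zero {m : ℕ} (h1 : O_Mov) (h2 : O_Opt) (s : Fin m → ℝ) (cap : Fin m → ℕ)
    (Y : ℤ → ℕ → List ℝ → Fin m → ℝ) (l : List ℝ) (hl : l.length ≤ ∑ j, cap j)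
    (h : opt s cap l = 0) (z : ℝ) : dl s (yy s cap Y l) l z = 0 := by
  obtain ⟨τ, hτ, hr, hc, e⟩ := yy_zero s cap Y l (by rw [h]; exact lt_irrefl _)
    ((h2 m s cap).1 l hl)
  rw [e]
  exact (h1 m s cap).2.2.2 l τ hτ (by rw [hc, h]) z

theorem bd_nonneg (C : ℝ) (hC : 0 < C) (i : ℤ) (j : ℕ) : 0 ≤ Bd C i j := by
  unfold Bd
  positivity

theorem bd_two (C : ℝ) (hC : 0 < C) (i i' : ℤ) (j j' : ℕ) (hi : i ≤ i') (hj : j ≤ j')
    (hne : ¬ (i = i' ∧ j = j')) : 2 * Bd C i j ≤ Bd C i' j' := by
  unfold Bd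
  have a1 : (2 : ℝ) ^ i ≤ (2 : ℝ) ^ i' := zpow_le_zpow_right₀ (by norm_num) hi
  have a2 : (2 : ℝ) ^ j ≤ (2 : ℝ) ^ j' := pow_le_pow_right₀ (by norm_num) hj
  have p1 : (0 : ℝ) < (2 : ℝ) ^ i := by positivity
  have p2 : (0 : ℝ) < (2 : ℝ) ^ j := by positivity
  rcases lt_or_eq_of_le hi with h | h
  · have b1 : 2 * (2 : ℝ) ^ i ≤ (2 : ℝ) ^ i' := by
      have := zpow_le_zpow_right₀ (a := (2 : ℝ)) (by norm_num) (show i + 1 ≤ i' by omega)
      rw [zpow_add_one₀ (by norm_num)] at this
      linarith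
    have : C * (2 : ℝ) ^ j * (2 * (2 : ℝ) ^ i) ≤ C * (2 : ℝ) ^ j' * (2 : ℝ) ^ i' := by
      apply mul_le_mul (mul_le_mul_of_nonneg_left a2 hC.le) b1 (by positivity) (by positivity)
    linarith
  · have hj' : j < j' := lt_of_le_of_ne hj (fun e => hne ⟨h, e⟩)
    have b2 : 2 * (2 : ℝ) ^ j ≤ (2 : ℝ) ^ j' := by
      have := pow_le_pow_right₀ (a := (2 : ℝ)) (by norm_num) (show j + 1 ≤ j' by omega)
      rw [pow_succ] at this
      linarith
    have : C * (2 * (2 : ℝ) ^ j) * (2 : ℝ) ^ i ≤ C * (2 : ℝ) ^ j' * (2 : ℝ) ^ i' := by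
      apply mul_le_mul (mul_le_mul_of_nonneg_left b2 hC.le) a1 (by positivity) (by positivity)
    linarith

end CmbAux

open CmbAux in
/-- Following the guesses. -/
theorem cmbP (h1 : O_Mov) (h2 : O_Opt) (h3 : O_Gss) : O_Cmb := by
  intro C m s cap Y hC hY hB
  obtain ⟨g1, g2, g3, g4, g5⟩ := h3
  have hopt := h2 m s cap
  have hmov := h1 m s cap
  have hfam := fam h2 s cap Y hY
  have opt0 : ∀ l : List ℝ, l.length ≤ ∑ j, cap j → 0 ≤ opt s cap l := by
    intro l hl
    obtain ⟨τ, e1, e2, -⟩ := hopt.1 l hl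
    exact (hopt.2.1 l τ e1 e2).2.1
  have hbd : ∀ l : List ℝ, l.length ≤ ∑ j, cap j → 0 < opt s cap l →
      Mov s (Y (gi (opt s cap l)) (gj l.length)) l ≤ Bd C (gi (opt s cap l)) (gj l.length) := by
    intro l hl ho
    exact hB _ _ l hl (g1 _) (g4 _ ho).1
  have key : ∀ l : List ℝ, l.length ≤ ∑ j, cap j →
      (opt s cap l = 0 → Mov s (yy s cap Y) l = 0) ∧
      (0 < opt s cap l → Mov s (yy s cap Y) l ≤
        Mov s (Y (gi (opt s cap l)) (gj l.length)) l +
          2 * Bd C (gi (opt s cap l)) (gj l.length)) := by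
    intro l
    induction l with
    | nil =>
      intro _
      refine ⟨fun _ => rfl, fun _ => ?_⟩
      have := bd_nonneg C hC (gi (opt s cap [])) (gj ([] : List ℝ).length)
      simp only [Mov]
      linarith
    | cons x l ih =>
      intro hl
      have hl' : l.length ≤ ∑ j, cap j := by
        simp only [List.length_cons] at hl
        omega
      obtain ⟨ih1, ih2⟩ := ih hl'
      have ho := opt0 l hl'
      have ho' := opt0 (x :: l) hl
      have hle := hopt.2.2.1 x l hl
      constructor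
      · intro h0
        have h00 : opt s cap l = 0 := le_antisymm (by rw [← h0]; exact hle) ho
        simp only [Mov]
        rw [ih1 h00]
        have e : ∀ z, |dl s (yy s cap Y (x :: l)) (x :: l) z - dl s (yy s cap Y l) l z| = 0 := by
          intro z
          rw [dl_zero h1 h2 s cap Y (x :: l) hl h0, dl_zero h1 h2 s cap Y l hl' h00]
          simp
        simp [e]
      · intro hp
        set i' := gi (opt s cap (x :: l)) with hi'
        set j' := gj (x :: l).length with hj'
        have ey : yy s cap Y (x :: l) = Y i' j' (x :: l) := yy_pos s cap Y (x :: l) hp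
        have hB' := bd_nonneg C hC i' j'
        rcases eq_or_lt_of_le ho with h0 | h0
        · have e : ∀ z, |dl s (yy s cap Y (x :: l)) (x :: l) z - dl s (yy s cap Y l) l z| =
              |dl s (Y i' j' (x :: l)) (x :: l) z| := by
            intro z
            rw [dl_zero h1 h2 s cap Y l hl' h0.symm, ey, sub_zero]
          have e2 : Mov s (yy s cap Y) (x :: l) = Mov s (yy s cap Y) l +
              ∫ z, |dl s (Y i' j' (x :: l)) (x :: l) z| := by
            simp only [Mov, e]
          rw [e2, ih1 h0.symm]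
          have := (hmov.2.1 (Y i' j') (x :: l) (hY _ _) hl).1
          linarith
        · have ih3 := ih2 h0
          set i := gi (opt s cap l) with hi
          set j := gj l.length with hj
          have el : yy s cap Y l = Y i j l := yy_pos s cap Y l h0
          have e2 : Mov s (yy s cap Y) (x :: l) = Mov s (yy s cap Y) l +
              ∫ z, |dl s (Y i' j' (x :: l)) (x :: l) z - dl s (Y i j l) l z| := by
            simp only [Mov, ey, el]
          by_cases hq : i = i' ∧ j = j'
          · rw [e2, ← hq.1, ← hq.2]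
            have e3 : Mov s (Y i j) (x :: l) = Mov s (Y i j) l +
                ∫ z, |dl s (Y i j (x :: l)) (x :: l) z - dl s (Y i j l) l z| := rfl
            rw [e3]
            linarith
          · have hii : i ≤ i' := g5 _ _ h0 hle
            have hjj : j ≤ j' := g2 _ _ (by simp)
            have hb2 := bd_two C hC i i' j j' hii hjj hq
            have hb1 := hbd l hl' h0
            have f1 := ((hY i' j').2 (x :: l) hl).2
            have f2 := ((hY i j).2 l hl').2
            have I1 : Integrable (dl s (Y i' j' (x :: l)) (x :: l)) := hmov.1 _ _ f1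
            have I2 : Integrable (dl s (Y i j l) l) := hmov.1 _ _ f2
            have m1 := (hmov.2.1 (Y i' j') (x :: l) (hY _ _) hl).1
            have m2 := (hmov.2.1 (Y i j) l (hY _ _) hl').1
            have m3 : ∫ z, |dl s (Y i' j' (x :: l)) (x :: l) z - dl s (Y i j l) l z| ≤
                (∫ z, |dl s (Y i' j' (x :: l)) (x :: l) z|) + ∫ z, |dl s (Y i j l) l z| := by
              rw [← integral_add I1.abs I2.abs]
              apply integral_mono (I1.sub I2).abs (I1.abs.add I2.abs)
              intro z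
              exact abs_sub _ _
            rw [e2]
            linarith
  refine ⟨yy s cap Y, hfam, fun l hl => ⟨(key l hl).1, fun ho => ?_⟩⟩
  have k2 := (key l hl).2 ho
  have k3 := hbd l hl ho
  linarith

end Pool.Agent.MP_a4c1f4_lc.SO
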