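import Pool.Agent.Lib.MP_a4c1f4_lc.SO.Spec

set_option autoImplicit false

/-!
Project SO: `O_FracP` (fractional solutions) and `O_FinP` (the final theorem).
-/

namespace Pool.Agent.MP_a4c1f4_lc.SO

open Finset MeasureTheory
open Pool.Agent.MP_a4c1f4_lc.Dbl.L (assigned cost Respects)

namespace FracAux

theorem len_le {m : ℕ} (cap : Fin m → ℕ) (τ : List (Fin m)) (h : Respects cap τ) :
    τ.length ≤ ∑ j, cap j := by
  have h1 : ∑ j, τ.count j = τ.length := by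
    rw [← List.sum_toFinset_count_eq_length τ]
    symm
    apply Finset.sum_subset (Finset.subset_univ _)
    intro x _ hx
    exact List.count_eq_zero.mpr (by simpa using hx)
  rw [← h1]
  exact Finset.sum_le_sum fun j _ => h j

theorem good_tail {m : ℕ} {s : Fin m → ℝ} {cap : Fin m → ℕ} {Λ : ℝ} {n0 : ℕ} {x : ℝ} {l : List ℝ}
    (h : Good s cap Λ n0 (x :: l)) : Good s cap Λ n0 l := by
  obtain ⟨h1, τ, h2, h3⟩ := h
  refine ⟨?_, ?_⟩
  · rw [List.length_cons] at h1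
    omega
  · cases τ with
    | nil => exact absurd h3 (by unfold Close; simp)
    | cons j τ =>
      refine ⟨τ, fun i => ?_, ?_⟩
      · refine le_trans ?_ (h2 i)
        rw [List.count_cons]
        exact Nat.le_add_right _ _
      · unfold Close at h3 ⊢
        rw [List.forall₂_cons] at h3
        exact h3.2

theorem mov_le {m : ℕ} (s : Fin m → ℝ) (cap : Fin m → ℕ) (Λ : ℝ) (n0 : ℕ)
    (y : List ℝ → Fin m → ℝ) (h2 : O_Mov) (hF : Fam cap y)
    (hm : ∀ x l, Good s cap Λ n0 (x :: l) → ∀ j, y l j ≤ y (x :: l) j) :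
    ∀ l : List ℝ, Good s cap Λ n0 l → l.length ≤ ∑ j, cap j → Mov s y l ≤ Mv s y l := by
  intro l
  induction l with
  | nil =>
    intro _ _
    exact le_refl _
  | cons x l ih =>
    intro hg hl
    have hl' : l.length ≤ ∑ j, cap j := by
      rw [List.length_cons] at hl
      omega
    have h3 := ih (good_tail hg) hl'
    have h4 := (h2 m s cap).2.2.1 y x l hF hl (hm x l hg)
    exact add_le_add h3 h4

theorem sqrt_le (j : ℕ) : Real.sqrt (((4 ^ j : ℕ) : ℝ) + 1) ≤ Real.sqrt 2 * 2 ^ j := by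
  have h1 : (1 : ℝ) ≤ 4 ^ j := one_le_pow₀ (by norm_num)
  have h2 : Real.sqrt 2 * 2 ^ j = Real.sqrt (2 * 4 ^ j) := by
    rw [Real.sqrt_mul (by norm_num)]
    congr 1
    have h3 : (4 : ℝ) ^ j = (2 ^ j) ^ 2 := by
      rw [← pow_mul, mul_comm, pow_mul]
      norm_num
    rw [h3, Real.sqrt_sq (by positivity)]
  rw [h2]
  apply Real.sqrt_le_sqrt
  push_cast
  linarith

end FracAux

open FracAux in
theorem fracP : O_FracP := by
  intro hOne hMov hOpt hGss hCmb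
  obtain ⟨C, hC, h1⟩ := hOne
  have hC1 : 0 < 2 * Real.sqrt 2 * C :=
    mul_pos (mul_pos two_pos (Real.sqrt_pos.mpr two_pos)) hC
  refine ⟨18 * (2 * Real.sqrt 2 * C), mul_pos (by norm_num) hC1, fun m s cap => ?_⟩
  choose Y hY1 hY2 hY3 using fun (i : ℤ) (j : ℕ) => h1 m s cap (4 ^ j) ((2 : ℝ) ^ i)
    (zpow_pos two_pos i)
  obtain ⟨ho1, ho2, -, ho4⟩ := hOpt m s cap
  have hB : ∀ (i : ℤ) (j : ℕ) (l : List ℝ), l.length ≤ ∑ j, cap j → l.length ≤ 2 ^ (4 ^ j) →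
      opt s cap l ≤ (2 : ℝ) ^ i → Mov s (Y i j) l ≤ Bd (2 * Real.sqrt 2 * C) i j := by
    intro i j l hl hn ho
    obtain ⟨τ, hτ, hres, hcost⟩ := ho1 l hl
    have hi : (0 : ℝ) < (2 : ℝ) ^ i := zpow_pos two_pos i
    have hco : cost s l τ ≤ (2 : ℝ) ^ i := by
      rw [hcost]
      exact ho
    have hclose : Close s ((2 : ℝ) ^ i) l τ := ho4 l τ _ hτ hco
    have hg : Good s cap ((2 : ℝ) ^ i) (2 ^ (4 ^ j)) l := ⟨hn, τ, hres, hclose⟩
    have h5 := mov_le s cap _ _ (Y i j) hMov (hY1 i j) (hY2 i j) l hg hl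
    have h6 := hY3 i j l τ hn hres hclose
    have hp : (0 : ℝ) < 2 ^ (4 ^ j) := pow_pos two_pos _
    have h7 : (2 : ℝ) ^ i / 2 ^ (4 ^ j) * (l.length : ℝ) ≤ (2 : ℝ) ^ i := by
      have h8 : (l.length : ℝ) ≤ 2 ^ (4 ^ j) := by exact_mod_cast hn
      rw [div_mul_eq_mul_div, div_le_iff₀ hp]
      exact mul_le_mul_of_nonneg_left h8 hi.le
    have h9 : cost s l τ + (2 : ℝ) ^ i / 2 ^ (4 ^ j) * (l.length : ℝ) ≤ 2 * (2 : ℝ) ^ i := by
      linarith
    have h10 : C * Real.sqrt (((4 ^ j : ℕ) : ℝ) + 1) ≤ C * (Real.sqrt 2 * 2 ^ j) :=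
      mul_le_mul_of_nonneg_left (sqrt_le j) hC.le
    have h11 : C * Real.sqrt (((4 ^ j : ℕ) : ℝ) + 1) *
        (cost s l τ + (2 : ℝ) ^ i / 2 ^ (4 ^ j) * (l.length : ℝ)) ≤
        C * (Real.sqrt 2 * 2 ^ j) * (2 * (2 : ℝ) ^ i) := by
      refine le_trans (mul_le_mul_of_nonneg_left h9 (mul_nonneg hC.le (Real.sqrt_nonneg _))) ?_
      exact mul_le_mul_of_nonneg_right h10 (mul_nonneg two_pos.le hi.le)
    have h12 : C * (Real.sqrt 2 * 2 ^ j) * (2 * (2 : ℝ) ^ i) = Bd (2 * Real.sqrt 2 * C) i j := by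
      unfold Bd
      ring
    rw [← h12]
    exact le_trans h5 (le_trans h6 h11)
  obtain ⟨y, hyF, hy⟩ := hCmb (2 * Real.sqrt 2 * C) m s cap Y hC1 hY1 hB
  refine ⟨y, hyF, fun l τ hτ hres => ?_⟩
  obtain ⟨hl, hop, hoc⟩ := ho2 l τ hτ hres
  have hs0 : 0 ≤ Real.sqrt (Real.log ((l.length : ℝ) + 1)) := Real.sqrt_nonneg _
  rcases hop.eq_or_lt with h0 | hpos
  · rw [(hy l hl).1 h0.symm]
    exact mul_nonneg (mul_nonneg (mul_pos (by norm_num) hC1).le hs0) (le_trans hop hoc)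
  · have hn : 1 ≤ l.length := by
      cases l with
      | nil =>
        have h2 : τ = [] := List.length_eq_zero_iff.mp (by rw [hτ]; rfl)
        subst h2
        have h3 : cost s ([] : List ℝ) ([] : List (Fin m)) = 0 := by simp [cost]
        rw [h3] at hoc
        linarith
      | cons x l => simp
    refine le_trans ((hy l hl).2 hpos) ?_
    obtain ⟨-, -, hg3, hg4, -⟩ := hGss
    have h13 := hg3 l.length hn
    have h14 := (hg4 (opt s cap l) hpos).2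
    have h15 : (2 : ℝ) ^ gi (opt s cap l) ≤ 2 * cost s l τ := by linarith
    have h16 : (0 : ℝ) < (2 : ℝ) ^ gi (opt s cap l) := zpow_pos two_pos _
    unfold Bd
    have h17 : 2 * Real.sqrt 2 * C * (2 : ℝ) ^ gj l.length * (2 : ℝ) ^ gi (opt s cap l) ≤
        2 * Real.sqrt 2 * C * (3 * Real.sqrt (Real.log ((l.length : ℝ) + 1))) * (2 * cost s l τ) := by
      refine le_trans (mul_le_mul_of_nonneg_right (mul_le_mul_of_nonneg_left h13 hC1.le) h16.le) ?_
      exact mul_le_mul_of_nonneg_left h15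
        (mul_nonneg hC1.le (mul_nonneg (by norm_num) hs0))
    calc 3 * (2 * Real.sqrt 2 * C * (2 : ℝ) ^ gj l.length * (2 : ℝ) ^ gi (opt s cap l))
        ≤ 3 * (2 * Real.sqrt 2 * C * (3 * Real.sqrt (Real.log ((l.length : ℝ) + 1))) *
          (2 * cost s l τ)) := mul_le_mul_of_nonneg_left h17 (by norm_num)
      _ = 18 * (2 * Real.sqrt 2 * C) * Real.sqrt (Real.log ((l.length : ℝ) + 1)) * cost s l τ := by
        ring

open FracAux in
theorem finP : O_FinP := by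
  intro hF hR
  obtain ⟨C, hC, h1⟩ := hF
  refine ⟨C, hC, fun m hm s cap => ?_⟩
  obtain ⟨y, hy, hb⟩ := h1 m s cap
  obtain ⟨Ω, mΩ, μ, hμ, A, hA, hRe, hc⟩ := hR m hm s cap y hy
  exact ⟨Ω, mΩ, μ, hμ, A, hA, hRe, fun l τ hτ hres =>
    (hc l (hτ ▸ len_le cap τ hres)).trans (hb l τ hτ hres)⟩

end Pool.Agent.MP_a4c1f4_lc.SO
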