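import Pool.Agent.Lib.MP_a4c1f4_lc.SO.Spec

set_option autoImplicit false

/-!
Online matching on the line with the ratio `O(√(log n))`: numbers for the guesses.
-/

namespace Pool.Agent.MP_a4c1f4_lc.SO

open Finset MeasureTheory

namespace GssAux

theorem ne (n : ℕ) : {j : ℕ | n ≤ 2 ^ (4 ^ j)}.Nonempty := by
  refine ⟨n, ?_⟩
  have h1 : n < 2 ^ n := Nat.lt_two_pow_self
  have h2 : n < 4 ^ n := Nat.lt_pow_self (by norm_num)
  have h3 : 2 ^ n ≤ 2 ^ (4 ^ n) := Nat.pow_le_pow_right (by norm_num) h2.le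
  exact h1.le.trans h3

theorem mem (n : ℕ) : n ≤ 2 ^ (4 ^ gj n) := Nat.sInf_mem (ne n)

theorem le {n j : ℕ} (h : n ≤ 2 ^ (4 ^ j)) : gj n ≤ j := Nat.sInf_le h

theorem log2 : (1 / 2 : ℝ) ≤ Real.log 2 := by
  have := Real.log_two_gt_d9
  linarith

theorem bound (n : ℕ) (hn : 1 ≤ n) : (2 : ℝ) ^ gj n ≤ 3 * Real.sqrt (Real.log (n + 1)) := by
  have hL : Real.log 2 ≤ Real.log (n + 1) := by
    apply Real.log_le_log (by norm_num)
    have : (1 : ℝ) ≤ n := by exact_mod_cast hn
    linarith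
  have hl2 := log2
  have hL0 : 0 ≤ Real.log ((n : ℝ) + 1) := by linarith
  have h9 : (3 * Real.sqrt (Real.log (n + 1))) ^ 2 = 9 * Real.log (n + 1) := by
    rw [mul_pow, Real.sq_sqrt hL0]
    norm_num
  apply le_of_sq_le_sq _ (by positivity)
  rw [h9]
  rcases Nat.eq_zero_or_pos (gj n) with h | h
  · rw [h]
    norm_num
    linarith
  · obtain ⟨j, hj⟩ : ∃ j, gj n = j + 1 := ⟨gj n - 1, by omega⟩
    have hlt : 2 ^ (4 ^ j) < n := by
      by_contra hc
      have := le (not_lt.mp hc)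
      omega
    have h1 : (4 : ℝ) ^ j * Real.log 2 ≤ Real.log (n + 1) := by
      have e : Real.log ((2 : ℝ) ^ (4 ^ j : ℕ)) = (4 : ℝ) ^ j * Real.log 2 := by
        rw [Real.log_pow]
        push_cast
        ring
      rw [← e]
      apply Real.log_le_log (by positivity)
      have : ((2 ^ (4 ^ j) : ℕ) : ℝ) < n := by exact_mod_cast hlt
      push_cast at this
      linarith
    rw [hj]
    have h2 : ((2 : ℝ) ^ (j + 1)) ^ 2 = 4 * 4 ^ j := by
      rw [← pow_mul, pow_succ' 4 j |>.symm, show (4 : ℝ) = 2 ^ 2 by norm_num, ← pow_mul]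
      congr 1
      ring
    rw [h2]
    have h4 : (0 : ℝ) < 4 ^ j := by positivity
    nlinarith

end GssAux

theorem gssP : O_Gss := by
  refine ⟨GssAux.mem, ?_, GssAux.bound, ?_, ?_⟩
  · intro n n' h
    exact GssAux.le (h.trans (GssAux.mem n'))
  · intro o ho
    unfold gi
    have h1 := Int.self_le_zpow_clog (b := 2) (by norm_num) o
    have h2 := Int.zpow_pred_clog_lt_self (b := 2) (by norm_num) ho
    push_cast at h1 h2
    refine ⟨h1, ?_⟩
    rw [zpow_sub_one₀ (by norm_num)] at h2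
    linarith
  · intro o o' ho h
    exact Int.clog_mono_right ho h

end Pool.Agent.MP_a4c1f4_lc.SO
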