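import Pool.Agent.Lib.MP_a4c1f4_lc.SO.Spec

set_option autoImplicit false
set_option linter.all false

/-!
Movement: integrability and triangle inequalities for the differences of step functions.
-/

namespace Pool.Agent.MP_a4c1f4_lc.SO

open Finset MeasureTheory
open Pool.Agent.MP_a4c1f4_lc.Dbl.L (assigned cost Respects)

namespace MovAux

/-- The step at `c`. -/
noncomputable def ind (c z : ℝ) : ℝ := if c ≤ z then 1 else 0

theorem ind_diff (a b z : ℝ) : |ind a z - ind b z| =
    (Set.Ico (min a b) (max a b)).indicator (fun _ => (1 : ℝ)) z := by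
  unfold ind
  rw [Set.indicator_apply]
  by_cases h1 : a ≤ z <;> by_cases h2 : b ≤ z
  · rw [if_pos h1, if_pos h2, if_neg]
    · simp
    · rintro ⟨_, h⟩
      exact absurd (max_le h1 h2) (not_le.mpr h)
  · rw [if_pos h1, if_neg h2, if_pos]
    · simp
    · exact ⟨le_trans (min_le_left _ _) h1, lt_of_lt_of_le (not_le.mp h2) (le_max_right _ _)⟩
  · rw [if_neg h1, if_pos h2, if_pos]
    · simp
    · exact ⟨le_trans (min_le_right _ _) h2, lt_of_lt_of_le (not_le.mp h1) (le_max_left _ _)⟩
  · rw [if_neg h1, if_neg h2, if_neg]
    · simp
    · rintro ⟨h, _⟩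
      rcases min_le_iff.mp h with h | h
      · exact h1 h
      · exact h2 h

theorem meas_ind (c : ℝ) : Measurable (ind c) :=
  Measurable.ite measurableSet_Ici measurable_const measurable_const

theorem int_abs (a b : ℝ) : Integrable (fun z => |ind a z - ind b z|) := by
  have h : (fun z => |ind a z - ind b z|) =
      (Set.Ico (min a b) (max a b)).indicator (fun _ => (1 : ℝ)) := funext (ind_diff a b)
  rw [h, integrable_indicator_iff measurableSet_Ico]
  exact integrableOn_const (by simp) (by simp)

theorem int_diff (a b : ℝ) : Integrable (fun z => ind a z - ind b z) := by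
  refine (integrable_norm_iff ?_).mp ?_
  · exact ((meas_ind a).sub (meas_ind b)).aestronglyMeasurable
  · simpa only [Real.norm_eq_abs] using int_abs a b

theorem integral_step (a b : ℝ) : ∫ z, |ind a z - ind b z| = |a - b| := by
  have h : (fun z => |ind a z - ind b z|) =
      (Set.Ico (min a b) (max a b)).indicator (fun _ => (1 : ℝ)) := funext (ind_diff a b)
  rw [h, integral_indicator_const _ measurableSet_Ico, Real.volume_real_Ico_of_le min_le_max]
  rw [max_sub_min_eq_abs, smul_eq_mul, mul_one, abs_sub_comm]

theorem dl_eq {m : ℕ} (s : Fin m → ℝ) (y : Fin m → ℝ) (l : List ℝ) (z : ℝ) :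
    dl s y l z = ∑ j, y j * ind (s j) z - (l.map (fun x => ind x z)).sum := by
  unfold dl ind
  congr 1
  refine Finset.sum_congr rfl (fun j _ => ?_)
  by_cases h : s j ≤ z
  · rw [if_pos h, if_pos h, mul_one]
  · rw [if_neg h, if_neg h, mul_zero]

theorem list_shift (l : List ℝ) (z c : ℝ) : (l.map (fun x => ind x z)).sum =
    (l.map (fun x => ind x z - ind c z)).sum + l.length * ind c z := by
  induction l with
  | nil => simp
  | cons x l ih =>
      simp only [List.map_cons, List.sum_cons, List.length_cons, Nat.cast_add, Nat.cast_one]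
      rw [ih]
      ring

theorem dl_shift {m : ℕ} (s : Fin m → ℝ) (y : Fin m → ℝ) (l : List ℝ) (z c : ℝ)
    (h : ∑ j, y j = l.length) :
    dl s y l z = ∑ j, y j * (ind (s j) z - ind c z) -
      (l.map (fun x => ind x z - ind c z)).sum := by
  rw [dl_eq, list_shift l z c]
  have : ∑ j, y j * (ind (s j) z - ind c z) = ∑ j, y j * ind (s j) z - l.length * ind c z := by
    rw [← h, Finset.sum_mul, ← Finset.sum_sub_distrib]
    refine Finset.sum_congr rfl (fun j _ => ?_)
    ring
  rw [this]
  ring

theorem int_list (l : List ℝ) (c : ℝ) :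
    Integrable (fun z => (l.map (fun x => ind x z - ind c z)).sum) := by
  induction l with
  | nil => simp
  | cons x l ih =>
      simp only [List.map_cons, List.sum_cons]
      exact (int_diff x c).add ih

theorem int_dl {m : ℕ} (s : Fin m → ℝ) (y : Fin m → ℝ) (l : List ℝ)
    (h : ∑ j, y j = l.length) : Integrable (dl s y l) := by
  have h1 : dl s y l = fun z => ∑ j, y j * (ind (s j) z - ind 0 z) -
      (l.map (fun x => ind x z - ind 0 z)).sum := funext (fun z => dl_shift s y l z 0 h)
  rw [h1]
  refine Integrable.sub ?_ (int_list l 0)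
  exact integrable_finsetSum _ (fun j _ => (int_diff (s j) 0).const_mul (y j))

theorem dl_step {m : ℕ} (s : Fin m → ℝ) (y y' : Fin m → ℝ) (x : ℝ) (l : List ℝ) (z : ℝ)
    (h : ∑ j, y j = l.length) (h' : ∑ j, y' j = (x :: l).length) :
    dl s y' (x :: l) z - dl s y l z = ∑ j, (y' j - y j) * (ind (s j) z - ind x z) := by
  rw [dl_eq, dl_eq, List.map_cons, List.sum_cons]
  have h1 : ∑ j, (y' j - y j) = 1 := by
    rw [Finset.sum_sub_distrib, h, h']
    simp
  have h2 : ∑ j, (y' j - y j) * (ind (s j) z - ind x z) =
      ∑ j, y' j * ind (s j) z - ∑ j, y j * ind (s j) z - (∑ j, (y' j - y j)) * ind x z := by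
    rw [Finset.sum_mul, ← Finset.sum_sub_distrib, ← Finset.sum_sub_distrib]
    refine Finset.sum_congr rfl (fun j _ => ?_)
    ring
  rw [h2, h1]
  ring

theorem zero_cost {m : ℕ} (s : Fin m → ℝ) : ∀ (l : List ℝ) (τ : List (Fin m)),
    τ.length = l.length → cost s l τ = 0 → l = τ.map s := by
  intro l
  induction l with
  | nil =>
      intro τ hτ _
      rw [List.length_nil, List.length_eq_zero_iff] at hτ
      subst hτ
      rfl
  | cons x l ih =>
      intro τ hτ h
      cases τ with
      | nil => simp at hτ
      | cons j τ =>
          have hc : cost s (x :: l) (j :: τ) = dist x (s j) + cost s l τ := by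
            simp [cost]
          have h0 : 0 ≤ cost s l τ := by
            unfold cost
            refine List.sum_nonneg ?_
            intro r hr
            rw [List.mem_iff_getElem] at hr
            obtain ⟨i, hi, rfl⟩ := hr
            rw [List.getElem_zipWith]
            exact dist_nonneg
          rw [hc] at h
          have h1 : dist x (s j) = 0 := by
            have := dist_nonneg (x := x) (y := s j)
            linarith
          have h2 : cost s l τ = 0 := by
            linarith
          rw [List.map_cons, ← ih τ (by simpa using hτ) h2, dist_eq_zero.mp h1]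

theorem count_sum {m : ℕ} (f : Fin m → ℝ) (τ : List (Fin m)) :
    ∑ j, (τ.count j : ℝ) * f j = (τ.map f).sum := by
  induction τ with
  | nil => simp
  | cons i τ ih =>
      rw [List.map_cons, List.sum_cons, ← ih]
      have : ∀ j, (((i :: τ).count j : ℕ) : ℝ) * f j =
          (if i = j then f j else 0) + (τ.count j : ℝ) * f j := by
        intro j
        rw [List.count_cons]
        by_cases h : i = j
        · subst h
          simp
          ring
        · simp [h]
      rw [Finset.sum_congr rfl (fun j _ => this j), Finset.sum_add_distrib,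
        Finset.sum_ite_eq]
      simp

end MovAux

open MovAux in
theorem movP : O_Mov := by
  intro m s cap
  refine ⟨fun y l h => int_dl s y l h, ?_, ?_, ?_⟩
  · intro y l hF
    induction l with
    | nil =>
        intro _
        have : ∀ z, dl s (y []) [] z = 0 := by
          intro z
          rw [dl_eq]
          simp [hF.1]
        simp [this, Mov]
    | cons x l ih =>
        intro hl
        have hl' : l.length ≤ ∑ j, cap j := le_trans (by simp) hl
        obtain ⟨h1, h2⟩ := ih hl'
        have i1 := int_dl s (y (x :: l)) (x :: l) (hF.2 _ hl).2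
        have i2 := int_dl s (y l) l (hF.2 _ hl').2
        have h3 : 0 ≤ ∫ z, |dl s (y (x :: l)) (x :: l) z - dl s (y l) l z| :=
          integral_nonneg (fun z => abs_nonneg _)
        constructor
        · have h4 : ∫ z, |dl s (y (x :: l)) (x :: l) z| ≤
              ∫ z, (|dl s (y (x :: l)) (x :: l) z - dl s (y l) l z| + |dl s (y l) l z|) := by
            refine integral_mono i1.abs ((i1.sub i2).abs.add i2.abs) (fun z => ?_)
            have := abs_add_le (dl s (y (x :: l)) (x :: l) z - dl s (y l) l z) (dl s (y l) l z)
            simpa using this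
          have h5 : ∫ z, (|dl s (y (x :: l)) (x :: l) z - dl s (y l) l z| + |dl s (y l) l z|) =
              (∫ z, |dl s (y (x :: l)) (x :: l) z - dl s (y l) l z|) + ∫ z, |dl s (y l) l z| :=
            integral_add (i1.sub i2).abs i2.abs
          rw [h5] at h4
          show _ ≤ Mov s y l + _
          linarith
        · show 0 ≤ Mov s y l + _
          linarith
  · intro y x l hF hl hm
    have hl' : l.length ≤ ∑ j, cap j := le_trans (by simp) hl
    have e : ∀ z, dl s (y (x :: l)) (x :: l) z - dl s (y l) l z =
        ∑ j, (y (x :: l) j - y l j) * (ind (s j) z - ind x z) := fun z =>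
      dl_step s (y l) (y (x :: l)) x l z (hF.2 _ hl').2 (hF.2 _ hl).2
    have i1 := int_dl s (y (x :: l)) (x :: l) (hF.2 _ hl).2
    have i2 := int_dl s (y l) l (hF.2 _ hl').2
    calc ∫ z, |dl s (y (x :: l)) (x :: l) z - dl s (y l) l z|
        ≤ ∫ z, ∑ j, (y (x :: l) j - y l j) * |ind (s j) z - ind x z| := by
          refine integral_mono (i1.sub i2).abs ?_ (fun z => ?_)
          · exact integrable_finsetSum _ (fun j _ => (int_abs (s j) x).const_mul _)
          · show |dl s (y (x :: l)) (x :: l) z - dl s (y l) l z| ≤ _
            rw [e z]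
            refine (Finset.abs_sum_le_sum_abs _ _).trans (le_of_eq ?_)
            refine Finset.sum_congr rfl (fun j _ => ?_)
            rw [abs_mul, abs_of_nonneg (sub_nonneg.mpr (hm j))]
      _ = ∑ j, (y (x :: l) j - y l j) * |x - s j| := by
          rw [integral_finset_sum _ (fun j _ => (int_abs (s j) x).const_mul _)]
          refine Finset.sum_congr rfl (fun j _ => ?_)
          rw [integral_const_mul, integral_step, abs_sub_comm]
  · intro l τ hτ h z
    have hl := zero_cost s l τ hτ h
    rw [dl_eq, hl, count_sum (fun j => ind (s j) z) τ, List.map_map]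
    exact sub_self _

end Pool.Agent.MP_a4c1f4_lc.SO
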