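import Pool.Agent.Lib.MP_a4c1f4_lc.SO.Spec

set_option autoImplicit false

/-! MP_a4c1f4_lc, project SO, module Nod: windows without big gaps have a large capacity. -/

namespace Pool.Agent.MP_a4c1f4_lc.SO

open Finset MeasureTheory
open Pool.Agent.MP_a4c1f4_lc.Dbl.L (assigned cost Respects)

namespace NodAux

/-- the node of a point of the window -/
lemma mem {η : ℝ} (hη : 0 < η) {z0 : ℤ} {x D : ℕ} {y : ℝ}
    (h1 : η * ((z0 : ℝ) + x) ≤ y) (h2 : y < η * ((z0 : ℝ) + x + D)) :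
    nd η z0 y ∈ Ico x (x + D) := by
  have g1 : (z0 + x : ℤ) ≤ ⌊y / η⌋ := by
    rw [Int.le_floor, le_div_iff₀ hη]
    push_cast
    linarith
  have g2 : ⌊y / η⌋ < (z0 + x + D : ℤ) := by
    rw [Int.floor_lt, div_lt_iff₀ hη]
    push_cast
    linarith
  unfold nd
  rw [Finset.mem_Ico]
  omega

/-- the sum over the nodes of a window -/
lemma sum_ge {m : ℕ} (s : Fin m → ℝ) (cap : Fin m → ℕ) (η : ℝ) (z0 : ℤ) (I : Finset ℕ) (n : ℕ)
    (f : ℕ → Fin m) (hinj : ∀ t t', t < n → t' < n → f t = f t' → t = t')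
    (hcap : ∀ t, t < n → 0 < cap (f t)) (hI : ∀ t, t < n → nd η z0 (s (f t)) ∈ I) :
    n ≤ ∑ k ∈ I, cc s cap η z0 k := by
  classical
  have h1 : ∑ k ∈ I, ∑ j ∈ (univ.filter (fun j : Fin m => nd η z0 (s j) ∈ I)).filter
      (fun j => nd η z0 (s j) = k), cap j =
      ∑ j ∈ univ.filter (fun j : Fin m => nd η z0 (s j) ∈ I), cap j :=
    Finset.sum_fiberwise_of_maps_to (fun j hj => (Finset.mem_filter.mp hj).2) _
  have h2 : ∑ k ∈ I, ∑ j ∈ (univ.filter (fun j : Fin m => nd η z0 (s j) ∈ I)).filter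
      (fun j => nd η z0 (s j) = k), cap j ≤ ∑ k ∈ I, cc s cap η z0 k := by
    refine Finset.sum_le_sum fun k _ => ?_
    unfold cc
    refine Finset.sum_le_sum_of_subset ?_
    intro j hj
    rw [Finset.mem_filter] at hj ⊢
    exact ⟨Finset.mem_univ _, hj.2⟩
  have h3 : ((range n).image f).card = n := by
    rw [Finset.card_image_of_injOn, Finset.card_range]
    intro t ht t' ht' h
    exact hinj t t' (by simpa using ht) (by simpa using ht') h
  have h4 : (range n).image f ⊆ univ.filter (fun j : Fin m => nd η z0 (s j) ∈ I) := by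
    intro j hj
    rw [Finset.mem_image] at hj
    obtain ⟨t, ht, rfl⟩ := hj
    rw [Finset.mem_filter]
    exact ⟨Finset.mem_univ _, hI t (Finset.mem_range.mp ht)⟩
  calc n = ((range n).image f).card := h3.symm
    _ = ∑ j ∈ (range n).image f, 1 := by rw [Finset.sum_const, smul_eq_mul, mul_one]
    _ ≤ ∑ j ∈ (range n).image f, cap j := by
        refine Finset.sum_le_sum fun j hj => ?_
        rw [Finset.mem_image] at hj
        obtain ⟨t, ht, rfl⟩ := hj
        exact hcap t (Finset.mem_range.mp ht)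
    _ ≤ ∑ j ∈ univ.filter (fun j : Fin m => nd η z0 (s j) ∈ I), cap j :=
        Finset.sum_le_sum_of_subset h4
    _ ≤ _ := by rw [← h1]; exact h2

end NodAux

/-- Without big gaps every window of `4 ^ (p + 1)` cells has a large capacity. -/
theorem nodP : O_Nod := by
  intro m s cap p Λ z0 E hΛ hNG hz0 hlow hhigh x hx
  obtain ⟨η, hη⟩ : ∃ η : ℝ, η = Λ / 2 ^ p := ⟨_, rfl⟩
  rw [← hη] at hz0 hlow hhigh ⊢
  have hη0 : 0 < η := by rw [hη]; positivity
  obtain ⟨n0, hn0⟩ : ∃ n0 : ℕ, n0 = 2 ^ p := ⟨_, rfl⟩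
  have hn1 : 1 ≤ n0 := by rw [hn0]; exact Nat.one_le_two_pow
  have hn1r : (1 : ℝ) ≤ n0 := by exact_mod_cast hn1
  have hΛη : Λ = η * n0 := by
    rw [hη, hn0]
    push_cast
    field_simp
  obtain ⟨D, hD⟩ : ∃ D : ℕ, D = 4 ^ (p + 1) := ⟨_, rfl⟩
  have hDn : D = 4 * n0 ^ 2 := by
    rw [hD, hn0, pow_succ, ← pow_mul, mul_comm p 2, pow_mul]
    norm_num
    ring
  have hDr : (D : ℝ) = 4 * (n0 : ℝ) ^ 2 := by exact_mod_cast hDn
  rw [← hD] at hx ⊢
  rw [← hn0]
  have hxr : (x : ℝ) + D ≤ E + 1 := by exact_mod_cast hx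
  have hx0 : (0 : ℝ) ≤ x := Nat.cast_nonneg x
  obtain ⟨i1, hi1, hi1z⟩ := hlow
  obtain ⟨i2, hi2, hi2z⟩ := hhigh
  have hs1 : s i1 < η * ((z0 : ℝ) + 1) := by
    have h1 := Int.lt_floor_add_one (s i1 / η)
    rw [hi1z, div_lt_iff₀ hη0] at h1
    linarith
  have hs2 : η * ((z0 : ℝ) + E) ≤ s i2 := by
    have h1 := Int.floor_le (s i2 / η)
    rw [hi2z, le_div_iff₀ hη0] at h1
    push_cast at h1
    linarith
  -- the points w t
  have hexp : ∀ t : ℕ, t < n0 → ∃ j, 0 < cap j ∧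
      |s j - (η * ((z0 : ℝ) + x) + (2 * t + 1) * (Λ + η))| ≤ Λ := by
    intro t ht
    have htr : (t : ℝ) + 1 ≤ n0 := by exact_mod_cast ht
    have ht0 : (0 : ℝ) ≤ t := Nat.cast_nonneg t
    have hLη : 0 < Λ + η := by linarith
    apply hNG
    · refine ⟨i1, hi1, hs1.trans_le ?_⟩
      have h1 : Λ + η ≤ (2 * (t : ℝ) + 1) * (Λ + η) := by nlinarith
      have h2 : 0 ≤ η * x := mul_nonneg hη0.le hx0
      linarith
    · refine ⟨i2, hi2, lt_of_lt_of_le ?_ hs2⟩
      have h1 : (2 * (t : ℝ) + 1) * (Λ + η) ≤ (2 * (n0 : ℝ) - 1) * (Λ + η) :=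
        mul_le_mul_of_nonneg_right (by linarith) hLη.le
      have h2 : (2 * (n0 : ℝ) - 1) * (Λ + η) ≤ η * D - Λ - η := by
        rw [hDr, hΛη]
        have h3 : 0 ≤ η * ((n0 : ℝ) * (n0 - 1)) :=
          mul_nonneg hη0.le (mul_nonneg (by linarith) (by linarith))
        nlinarith
      have h4 : η * ((x : ℝ) + D) ≤ η * (E + 1) := mul_le_mul_of_nonneg_left hxr hη0.le
      linarith
  have hex : ∀ t : ℕ, ∃ j, t < n0 → 0 < cap j ∧
      |s j - (η * ((z0 : ℝ) + x) + (2 * t + 1) * (Λ + η))| ≤ Λ := by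
    intro t
    by_cases ht : t < n0
    · obtain ⟨j, hj⟩ := hexp t ht
      exact ⟨j, fun _ => hj⟩
    · exact ⟨i1, fun h => absurd h ht⟩
  choose f hf using hex
  refine NodAux.sum_ge s cap η z0 _ n0 f ?_ (fun t ht => (hf t ht).1) ?_
  · -- injectivity
    have key : ∀ t t' : ℕ, t < n0 → t' < n0 → f t = f t' → ¬ t < t' := by
      intro t t' ht ht' h hlt
      have h1 := (hf t ht).2
      have h2 := (hf t' ht').2
      rw [← h] at h2
      rw [abs_le] at h1 h2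
      have hr : (t : ℝ) + 1 ≤ t' := by exact_mod_cast hlt
      have h3 : (2 * (t : ℝ) + 1) * (Λ + η) + 2 * (Λ + η) ≤ (2 * (t' : ℝ) + 1) * (Λ + η) := by
        have h4 : (2 * (t : ℝ) + 3) * (Λ + η) ≤ (2 * (t' : ℝ) + 1) * (Λ + η) :=
          mul_le_mul_of_nonneg_right (by linarith) (by linarith)
        linarith
      linarith [h1.2, h2.1]
    intro t t' ht ht' h
    rcases lt_trichotomy t t' with h1 | h1 | h1
    · exact absurd h1 (key t t' ht ht' h)
    · exact h1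
    · exact absurd h1 (key t' t ht' ht h.symm)
  · intro t ht
    have htr : (t : ℝ) + 1 ≤ n0 := by exact_mod_cast ht
    have ht0 : (0 : ℝ) ≤ t := Nat.cast_nonneg t
    have hLη : 0 < Λ + η := by linarith
    have h0 := (hf t ht).2
    rw [abs_le] at h0
    refine NodAux.mem hη0 ?_ ?_
    · have h1 : Λ + η ≤ (2 * (t : ℝ) + 1) * (Λ + η) := by nlinarith
      linarith [h0.1]
    · have h1 : (2 * (t : ℝ) + 1) * (Λ + η) ≤ (2 * (n0 : ℝ) - 1) * (Λ + η) :=
        mul_le_mul_of_nonneg_right (by linarith) hLη.le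
      have h2 : (2 * (n0 : ℝ) - 1) * (Λ + η) ≤ η * D - Λ - η := by
        rw [hDr, hΛη]
        have h3 : 0 ≤ η * ((n0 : ℝ) * (n0 - 1)) :=
          mul_nonneg hη0.le (mul_nonneg (by linarith) (by linarith))
        nlinarith
      linarith [h0.2]

end Pool.Agent.MP_a4c1f4_lc.SO
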