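import Pool.Agent.Lib.MP_a4c1f4_lc.SO.Spec

set_option autoImplicit false
set_option linter.all false

/-!
The optimal offline cost.
-/

namespace Pool.Agent.MP_a4c1f4_lc.SO

open Finset MeasureTheory
open Pool.Agent.MP_a4c1f4_lc.Dbl.L (assigned cost Respects)

namespace OptAux

theorem cost_cons {m : ℕ} (s : Fin m → ℝ) (x : ℝ) (l : List ℝ) (j : Fin m) (τ : List (Fin m)) :
    cost s (x :: l) (j :: τ) = |x - s j| + cost s l τ := by
  simp [cost, Real.dist_eq]

theorem cost_nonneg {m : ℕ} (s : Fin m → ℝ) : ∀ (l : List ℝ) (τ : List (Fin m)), 0 ≤ cost s l τ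
  | [], τ => by simp [cost]
  | x :: l, [] => by simp [cost]
  | x :: l, j :: τ => by
      rw [cost_cons]
      exact add_nonneg (abs_nonneg _) (cost_nonneg s l τ)

theorem sum_count {m : ℕ} (τ : List (Fin m)) : ∑ j, τ.count j = τ.length := by
  have h := Multiset.sum_count_eq_card (s := (univ : Finset (Fin m))) (m := (τ : Multiset (Fin m)))
    (fun a _ => mem_univ a)
  simpa using h

theorem length_le {m : ℕ} (cap : Fin m → ℕ) (τ : List (Fin m)) (h : Respects cap τ) :
    τ.length ≤ ∑ j, cap j := by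
  rw [← sum_count]
  exact sum_le_sum (fun j _ => h j)

theorem exists_respects {m : ℕ} (cap : Fin m → ℕ) : ∀ n : ℕ, n ≤ ∑ j, cap j →
    ∃ τ : List (Fin m), τ.length = n ∧ Respects cap τ
  | 0, _ => ⟨[], rfl, fun j => by simp⟩
  | n + 1, hn => by
      obtain ⟨τ, hl, hr⟩ := exists_respects cap n (by omega)
      have h : ∑ j, τ.count j < ∑ j, cap j := by
        rw [sum_count, hl]; omega
      obtain ⟨j, _, hj⟩ := exists_lt_of_sum_lt h
      refine ⟨j :: τ, by simp [hl], fun i => ?_⟩
      by_cases hij : j = i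
      · subst hij
        rw [List.count_cons_self]
        omega
      · rw [List.count_cons_of_ne hij]
        exact hr i

theorem respects_tail {m : ℕ} (cap : Fin m → ℕ) (j : Fin m) (τ : List (Fin m))
    (h : Respects cap (j :: τ)) : Respects cap τ := by
  intro i
  exact (List.count_le_count_cons).trans (h i)

theorem attained {m : ℕ} (s : Fin m → ℝ) (cap : Fin m → ℕ) (l : List ℝ)
    (hl : l.length ≤ ∑ j, cap j) :
    ∃ τ : List (Fin m), τ.length = l.length ∧ Respects cap τ ∧ cost s l τ = opt s cap l := by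
  obtain ⟨τ, h1, h2⟩ := exists_respects cap l.length hl
  have hne : ({c : ℝ | ∃ τ : List (Fin m), τ.length = l.length ∧ Respects cap τ ∧
      cost s l τ = c}).Nonempty := ⟨cost s l τ, τ, h1, h2, rfl⟩
  have hfin : ({c : ℝ | ∃ τ : List (Fin m), τ.length = l.length ∧ Respects cap τ ∧
      cost s l τ = c}).Finite := by
    apply ((List.finite_length_eq (Fin m) l.length).image (fun τ => cost s l τ)).subset
    rintro c ⟨τ, h1, h2, h3⟩
    exact ⟨τ, h1, h3⟩
  exact hne.csInf_mem hfin

theorem opt_le {m : ℕ} (s : Fin m → ℝ) (cap : Fin m → ℕ) (l : List ℝ) (τ : List (Fin m))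
    (h1 : τ.length = l.length) (h2 : Respects cap τ) : opt s cap l ≤ cost s l τ := by
  apply csInf_le
  · refine ⟨0, ?_⟩
    rintro c ⟨τ, _, _, h3⟩
    rw [← h3]
    exact cost_nonneg s l τ
  · exact ⟨τ, h1, h2, rfl⟩

theorem opt_nonneg {m : ℕ} (s : Fin m → ℝ) (cap : Fin m → ℕ) (l : List ℝ) :
    0 ≤ opt s cap l := by
  apply Real.sInf_nonneg
  rintro c ⟨τ, _, _, h3⟩
  rw [← h3]
  exact cost_nonneg s l τ

theorem close {m : ℕ} (s : Fin m → ℝ) : ∀ (l : List ℝ) (τ : List (Fin m)) (Λ : ℝ),
    τ.length = l.length → cost s l τ ≤ Λ → Close s Λ l τ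
  | [], [], Λ, _, _ => List.Forall₂.nil
  | [], j :: τ, Λ, h, _ => by simp at h
  | x :: l, [], Λ, h, _ => by simp at h
  | x :: l, j :: τ, Λ, h, hc => by
      rw [cost_cons] at hc
      have h1 := cost_nonneg s l τ
      have h2 := abs_nonneg (x - s j)
      refine List.Forall₂.cons (by linarith) ?_
      exact close s l τ Λ (by simpa using h) (by linarith)

end OptAux

theorem optP : O_Opt := by
  intro m s cap
  refine ⟨OptAux.attained s cap, ?_, ?_, OptAux.close s⟩
  · intro l τ h1 h2
    refine ⟨?_, OptAux.opt_nonneg s cap l, OptAux.opt_le s cap l τ h1 h2⟩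
    rw [← h1]
    exact OptAux.length_le cap τ h2
  · intro x l hl
    obtain ⟨τ, h1, h2, h3⟩ := OptAux.attained s cap (x :: l) hl
    cases τ with
    | nil => simp at h1
    | cons j τ =>
      rw [← h3, OptAux.cost_cons]
      have h4 := OptAux.opt_le s cap l τ (by simpa using h1) (OptAux.respects_tail cap j τ h2)
      have h5 := abs_nonneg (x - s j)
      linarith

end Pool.Agent.MP_a4c1f4_lc.SO
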