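import Pool.Agent.Lib.MP_a4c1f4_lc.SO.Spec

set_option autoImplicit false
set_option linter.all false

/-!
Online matching on the line with the ratio `O(√(log n))`, outer part: proportional shares of the
sites of one cell.
-/

namespace Pool.Agent.MP_a4c1f4_lc.SO

open Finset MeasureTheory
open Pool.Agent.MP_a4c1f4_lc.Dbl.L (assigned cost Respects)

namespace ShrAux

theorem group {R : Type} [AddCommMonoid R] {m : ℕ} (E : ℕ) (n : Fin m → ℕ) (t : Fin m → R)
    (h : ∀ j, ¬ n j ≤ E → t j = 0) :
    ∑ k ∈ range (E + 1), ∑ j ∈ univ.filter (fun j => n j = k), t j = ∑ j, t j := by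
  have e1 : ∑ k ∈ range (E + 1), ∑ j ∈ univ.filter (fun j => n j = k), t j =
      ∑ k ∈ range (E + 1), ∑ j, (if n j = k then t j else 0) := by
    apply Finset.sum_congr rfl
    intro k _
    rw [Finset.sum_filter]
  rw [e1, Finset.sum_comm]
  apply Finset.sum_congr rfl
  intro j _
  rw [Finset.sum_ite_eq]
  by_cases hj : n j ≤ E
  · rw [if_pos (Finset.mem_range.2 (by omega))]
  · rw [h j hj, if_neg (by
      intro hh
      exact hj (by have := Finset.mem_range.1 hh; omega))]

theorem cap_le {m : ℕ} (s : Fin m → ℝ) (cap : Fin m → ℕ) (η : ℝ) (z0 : ℤ) (j : Fin m) :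
    cap j ≤ cc s cap η z0 (nd η z0 (s j)) := by
  unfold cc
  exact Finset.single_le_sum (f := cap) (fun i _ => Nat.zero_le _)
    (Finset.mem_filter.2 ⟨Finset.mem_univ j, rfl⟩)

theorem sh_zero {m : ℕ} (s : Fin m → ℝ) (cap : Fin m → ℕ) (η : ℝ) (z0 : ℤ) (a : ℕ → ℝ)
    (j : Fin m) (h : cap j = 0) : sh s cap η z0 a j = 0 := by
  unfold sh
  rw [h]
  simp

theorem inner {m : ℕ} (s : Fin m → ℝ) (cap : Fin m → ℕ) (η : ℝ) (z0 : ℤ) (a : ℕ → ℝ) (k : ℕ)
    (h0 : 0 ≤ a k) (h1 : a k ≤ cc s cap η z0 k) (g : ℕ → ℝ) :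
    ∑ j ∈ univ.filter (fun j => nd η z0 (s j) = k), sh s cap η z0 a j * g (nd η z0 (s j)) =
      a k * g k := by
  have e1 : ∀ j ∈ univ.filter (fun j => nd η z0 (s j) = k),
      sh s cap η z0 a j * g (nd η z0 (s j)) =
        (a k * g k / (cc s cap η z0 k : ℝ)) * (cap j : ℝ) := by
    intro j hj
    have hk := (Finset.mem_filter.1 hj).2
    unfold sh
    rw [hk]
    ring
  rw [Finset.sum_congr rfl e1, ← Finset.mul_sum]
  have e2 : ∑ j ∈ univ.filter (fun j => nd η z0 (s j) = k), (cap j : ℝ) =
      (cc s cap η z0 k : ℝ) := by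
    unfold cc
    push_cast
    rfl
  rw [e2]
  by_cases hc : (cc s cap η z0 k : ℝ) = 0
  · have ha : a k = 0 := le_antisymm (by rw [hc] at h1; exact h1) h0
    rw [ha]
    simp
  · field_simp

end ShrAux

open ShrAux

theorem shrP : O_Shr := by
  intro m s cap η z0 E hE
  refine ⟨?_, ?_, ?_⟩
  · intro a ha
    refine ⟨?_, ?_⟩
    · intro j
      rcases Nat.eq_zero_or_pos (cap j) with h | h
      · rw [sh_zero s cap η z0 a j h, h]
        simp
      · obtain ⟨h0, h1⟩ := ha _ (hE j h)
        have hc : cap j ≤ cc s cap η z0 (nd η z0 (s j)) := cap_le s cap η z0 j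
        have hc0 : (0 : ℝ) < (cc s cap η z0 (nd η z0 (s j)) : ℝ) := by
          exact_mod_cast lt_of_lt_of_le h hc
        unfold sh
        refine ⟨by positivity, ?_⟩
        rw [div_le_iff₀ hc0, mul_comm]
        exact mul_le_mul_of_nonneg_left h1 (Nat.cast_nonneg _)
    · intro g
      rw [← group E (fun j => nd η z0 (s j)) (fun j => sh s cap η z0 a j * g (nd η z0 (s j)))]
      · apply Finset.sum_congr rfl
        intro k hk
        have hk' : k ≤ E := by
          have := Finset.mem_range.1 hk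
          omega
        exact inner s cap η z0 a k (ha k hk').1 (ha k hk').2 g
      · intro j hj
        have h : cap j = 0 := by
          by_contra hne
          exact hj (hE j (Nat.pos_of_ne_zero hne))
        show sh s cap η z0 a j * g (nd η z0 (s j)) = 0
        rw [sh_zero s cap η z0 a j h, zero_mul]
  · intro a a' haa j
    rcases Nat.eq_zero_or_pos (cap j) with h | h
    · rw [sh_zero s cap η z0 a j h, sh_zero s cap η z0 a' j h]
    · unfold sh
      have := haa _ (hE j h)
      exact div_le_div_of_nonneg_right (mul_le_mul_of_nonneg_right this (Nat.cast_nonneg _))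
        (Nat.cast_nonneg _)
  · unfold cc
    apply group E (fun j => nd η z0 (s j)) cap
    intro j hj
    by_contra hne
    exact hj (hE j (Nat.pos_of_ne_zero hne))

end Pool.Agent.MP_a4c1f4_lc.SO
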