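import Pool.Agent.Lib.MP_a4c1f4_lc.SO.Spec

set_option autoImplicit false
set_option linter.all false

/-!
Splitting an assignment at a big gap.
-/

namespace Pool.Agent.MP_a4c1f4_lc.SO

open Finset MeasureTheory
open Pool.Agent.MP_a4c1f4_lc.Dbl.L (assigned cost Respects)

namespace SpTAux

/-- The part of `τ` on the left of `w`. -/
noncomputable def tl {m : ℕ} (s : Fin m → ℝ) (w : ℝ) (τ : List (Fin m)) : List (Fin m) :=
  τ.filter (fun j => decide (s j ≤ w))

/-- The part of `τ` on the right of `w`. -/
noncomputable def tr {m : ℕ} (s : Fin m → ℝ) (w : ℝ) (τ : List (Fin m)) : List (Fin m) :=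
  τ.filter (fun j => decide (w < s j))

theorem count_filter_le {α : Type*} [DecidableEq α] (p : α → Bool) (τ : List α) (j : α) :
    (τ.filter p).count j ≤ if p j = true then τ.count j else 0 := by
  by_cases h : p j = true
  · rw [if_pos h, List.count_filter h]
  · rw [if_neg h]
    have : j ∉ τ.filter p := by
      intro hj
      exact h (List.mem_filter.1 hj).2
    exact le_of_eq (List.count_eq_zero.2 this)

theorem split {m : ℕ} (s : Fin m → ℝ) (w Λ : ℝ) (l : List ℝ) (τ : List (Fin m))
    (hc : List.Forall₂ (fun x j => |x - s j| ≤ Λ) l τ)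
    (h : ∀ j ∈ τ, s j + Λ < w ∨ w + Λ < s j) :
    List.Forall₂ (fun x j => |x - s j| ≤ Λ) (lo w l) (tl s w τ) ∧
    List.Forall₂ (fun x j => |x - s j| ≤ Λ) (up w l) (tr s w τ) ∧
    cost s l τ = cost s (lo w l) (tl s w τ) + cost s (up w l) (tr s w τ) := by
  induction hc with
  | nil => simp [lo, up, tl, tr, cost]
  | @cons x j l' τ' hx hc' ih =>
    obtain ⟨i1, i2, i3⟩ := ih (fun k hk => h k (List.mem_cons_of_mem _ hk))
    have hab := abs_le.1 hx
    rcases h j List.mem_cons_self with hj | hj
    · have hxw : x ≤ w := by linarith [hab.2]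
      have hΛ : 0 ≤ Λ := le_trans (abs_nonneg _) hx
      have hjw : s j ≤ w := by linarith
      have e1 : lo w (x :: l') = x :: lo w l' := by
        simp [lo, hxw]
      have e2 : up w (x :: l') = up w l' := by
        simp [up, not_lt.2 hxw]
      have e3 : tl s w (j :: τ') = j :: tl s w τ' := by
        simp [tl, hjw]
      have e4 : tr s w (j :: τ') = tr s w τ' := by
        simp [tr, not_lt.2 hjw]
      rw [e1, e2, e3, e4]
      refine ⟨List.Forall₂.cons hx i1, i2, ?_⟩
      simp only [cost, List.zipWith_cons_cons, List.sum_cons] at i3 ⊢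
      rw [i3]; ring
    · have hxw : w < x := by linarith [hab.1]
      have hΛ : 0 ≤ Λ := le_trans (abs_nonneg _) hx
      have hjw : w < s j := by linarith
      have e1 : lo w (x :: l') = lo w l' := by
        simp [lo, hxw]
      have e2 : up w (x :: l') = x :: up w l' := by
        simp [up, hxw]
      have e3 : tl s w (j :: τ') = tl s w τ' := by
        simp [tl, hjw]
      have e4 : tr s w (j :: τ') = j :: tr s w τ' := by
        simp [tr, hjw]
      rw [e1, e2, e3, e4]
      refine ⟨i1, List.Forall₂.cons hx i2, ?_⟩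
      simp only [cost, List.zipWith_cons_cons, List.sum_cons] at i3 ⊢
      rw [i3]; ring

end SpTAux

theorem spTP : O_SpT := by
  intro m s cap w Λ l τ hgap hres hclose
  have hτ : ∀ j ∈ τ, s j + Λ < w ∨ w + Λ < s j := by
    intro j hj
    apply hgap j
    exact lt_of_lt_of_le (List.count_pos_iff.2 hj) (hres j)
  obtain ⟨h1, h2, h3⟩ := SpTAux.split s w Λ l τ hclose hτ
  refine ⟨SpTAux.tl s w τ, SpTAux.tr s w τ, ?_, ?_, h1, h2, h3⟩
  · intro j
    refine le_trans (SpTAux.count_filter_le _ τ j) ?_
    simp only [capL, decide_eq_true_eq]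
    split_ifs
    · exact hres j
    · exact le_rfl
  · intro j
    refine le_trans (SpTAux.count_filter_le _ τ j) ?_
    simp only [capR, decide_eq_true_eq]
    split_ifs
    · exact hres j
    · exact le_rfl

end Pool.Agent.MP_a4c1f4_lc.SO
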