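import Pool.Agent.Lib.MP_a4c1f4_lc.SO.Spec

set_option autoImplicit false

/-!
Combining the families of the two sides of a big gap.
-/

namespace Pool.Agent.MP_a4c1f4_lc.SO

open Finset MeasureTheory
open Pool.Agent.MP_a4c1f4_lc.Dbl.L (assigned cost Respects)

namespace SplAux

variable {m : ℕ}

/-- The length of a list which respects the capacities is at most their sum. -/
theorem length_le (cap : Fin m → ℕ) (τ : List (Fin m)) (h : Respects cap τ) :
    τ.length ≤ ∑ j, cap j := by
  have h1 : τ.length = ∑ j : Fin m, τ.count j := by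
    have := Multiset.sum_count_eq_card (s := (Finset.univ : Finset (Fin m)))
      (m := (τ : Multiset (Fin m))) (fun a _ => Finset.mem_univ a)
    simpa using this.symm
  rw [h1]
  exact Finset.sum_le_sum (fun j _ => h j)

theorem cap_split (s : Fin m → ℝ) (cap : Fin m → ℕ) (w : ℝ) (j : Fin m) :
    capL s cap w j + capR s cap w j = cap j := by
  unfold capL capR
  by_cases h : s j ≤ w
  · rw [if_pos h, if_neg (not_lt.mpr h)]
    simp
  · rw [if_neg h, if_pos (not_le.mp h)]
    simp

theorem lo_cons_le (w x : ℝ) (l : List ℝ) (h : x ≤ w) : lo w (x :: l) = x :: lo w l := by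
  unfold lo
  rw [List.filter_cons_of_pos]
  simpa using h

theorem lo_cons_lt (w x : ℝ) (l : List ℝ) (h : w < x) : lo w (x :: l) = lo w l := by
  unfold lo
  rw [List.filter_cons_of_neg]
  simpa using h

theorem up_cons_le (w x : ℝ) (l : List ℝ) (h : x ≤ w) : up w (x :: l) = up w l := by
  unfold up
  rw [List.filter_cons_of_neg]
  simpa using h

theorem up_cons_lt (w x : ℝ) (l : List ℝ) (h : w < x) : up w (x :: l) = x :: up w l := by
  unfold up
  rw [List.filter_cons_of_pos]
  simpa using h

theorem len_split (w : ℝ) (l : List ℝ) : (lo w l).length + (up w l).length = l.length := by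
  induction l with
  | nil => simp [lo, up]
  | cons x l ih =>
    rcases le_or_gt x w with h | h
    · rw [lo_cons_le w x l h, up_cons_le w x l h, List.length_cons, List.length_cons]
      omega
    · rw [lo_cons_lt w x l h, up_cons_lt w x l h, List.length_cons, List.length_cons]
      omega

theorem lo_len_cons (w x : ℝ) (l : List ℝ) : (lo w l).length ≤ (lo w (x :: l)).length := by
  rcases le_or_gt x w with h | h
  · rw [lo_cons_le w x l h, List.length_cons]
    omega
  · rw [lo_cons_lt w x l h]

theorem up_len_cons (w x : ℝ) (l : List ℝ) : (up w l).length ≤ (up w (x :: l)).length := by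
  rcases le_or_gt x w with h | h
  · rw [up_cons_le w x l h]
  · rw [up_cons_lt w x l h, List.length_cons]
    omega

open Classical in
/-- The combined family. -/
noncomputable def yc (s : Fin m → ℝ) (cap : Fin m → ℕ) (w : ℝ) (y1 y2 : List ℝ → Fin m → ℝ)
    (l : List ℝ) (j : Fin m) : ℝ :=
  if (lo w l).length ≤ ∑ j, capL s cap w j ∧ (up w l).length ≤ ∑ j, capR s cap w j then
    y1 (lo w l) j + y2 (up w l) j
  else (l.length : ℝ) * cap j / ((∑ j, cap j : ℕ) : ℝ)

theorem yc_pos (s : Fin m → ℝ) (cap : Fin m → ℕ) (w : ℝ) (y1 y2 : List ℝ → Fin m → ℝ)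
    (l : List ℝ) (h1 : (lo w l).length ≤ ∑ j, capL s cap w j)
    (h2 : (up w l).length ≤ ∑ j, capR s cap w j) (j : Fin m) :
    yc s cap w y1 y2 l j = y1 (lo w l) j + y2 (up w l) j := by
  unfold yc
  rw [if_pos ⟨h1, h2⟩]

theorem fam (s : Fin m → ℝ) (cap : Fin m → ℕ) (w : ℝ) (y1 y2 : List ℝ → Fin m → ℝ)
    (hf1 : Fam (capL s cap w) y1) (hf2 : Fam (capR s cap w) y2) :
    Fam cap (yc s cap w y1 y2) := by
  refine ⟨fun j => ?_, fun l hl => ?_⟩
  · rw [yc_pos s cap w y1 y2 [] (by simp [lo]) (by simp [up]) j]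
    have e1 : lo w ([] : List ℝ) = [] := by simp [lo]
    have e2 : up w ([] : List ℝ) = [] := by simp [up]
    rw [e1, e2, hf1.1 j, hf2.1 j, add_zero]
  · by_cases hc : (lo w l).length ≤ ∑ j, capL s cap w j ∧ (up w l).length ≤ ∑ j, capR s cap w j
    · obtain ⟨b1, t1⟩ := hf1.2 (lo w l) hc.1
      obtain ⟨b2, t2⟩ := hf2.2 (up w l) hc.2
      refine ⟨fun j => ?_, ?_⟩
      · rw [yc_pos s cap w y1 y2 l hc.1 hc.2 j]
        have e : ((cap j : ℕ) : ℝ) = (capL s cap w j : ℝ) + (capR s cap w j : ℝ) := by
          rw [← cap_split s cap w j]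
          push_cast
          ring
        rw [e]
        have := b1 j
        have := b2 j
        constructor <;> linarith [(b1 j).1, (b1 j).2, (b2 j).1, (b2 j).2]
      · have e : ∀ j, yc s cap w y1 y2 l j = y1 (lo w l) j + y2 (up w l) j :=
          fun j => yc_pos s cap w y1 y2 l hc.1 hc.2 j
        rw [Finset.sum_congr rfl (fun j _ => e j), Finset.sum_add_distrib, t1, t2,
          ← len_split w l]
        push_cast
        ring
    · have e : ∀ j, yc s cap w y1 y2 l j = (l.length : ℝ) * cap j / ((∑ j, cap j : ℕ) : ℝ) := by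
        intro j
        unfold yc
        rw [if_neg hc]
      rcases Nat.eq_zero_or_pos (∑ j, cap j) with h0 | h0
      · have hl0 : l.length = 0 := by omega
        refine ⟨fun j => ?_, ?_⟩
        · rw [e j, h0, hl0]
          simp
        · rw [Finset.sum_congr rfl (fun j _ => e j), h0, hl0]
          simp
      · have h0' : (0 : ℝ) < ((∑ j, cap j : ℕ) : ℝ) := by exact_mod_cast h0
        have hl' : (l.length : ℝ) ≤ ((∑ j, cap j : ℕ) : ℝ) := by exact_mod_cast hl
        refine ⟨fun j => ?_, ?_⟩
        · rw [e j]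
          constructor
          · positivity
          · rw [div_le_iff₀ h0', mul_comm]
            exact mul_le_mul_of_nonneg_left hl' (by positivity)
        · rw [Finset.sum_congr rfl (fun j _ => e j), ← Finset.sum_div, ← Finset.mul_sum,
            ← Nat.cast_sum, mul_div_assoc, div_self h0'.ne', mul_one]

theorem mv (s : Fin m → ℝ) (cap : Fin m → ℕ) (w : ℝ) (y1 y2 : List ℝ → Fin m → ℝ) :
    ∀ (l : List ℝ), (lo w l).length ≤ ∑ j, capL s cap w j →
      (up w l).length ≤ ∑ j, capR s cap w j →
      Mv s (yc s cap w y1 y2) l = Mv s y1 (lo w l) + Mv s y2 (up w l)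
  | [], _, _ => by simp [lo, up, Mv]
  | x :: l, h1, h2 => by
    have g1 : (lo w l).length ≤ ∑ j, capL s cap w j := (lo_len_cons w x l).trans h1
    have g2 : (up w l).length ≤ ∑ j, capR s cap w j := (up_len_cons w x l).trans h2
    have ih := mv s cap w y1 y2 l g1 g2
    have e0 : ∀ j, yc s cap w y1 y2 l j = y1 (lo w l) j + y2 (up w l) j :=
      fun j => yc_pos s cap w y1 y2 l g1 g2 j
    have e1 : ∀ j, yc s cap w y1 y2 (x :: l) j =
        y1 (lo w (x :: l)) j + y2 (up w (x :: l)) j :=
      fun j => yc_pos s cap w y1 y2 (x :: l) h1 h2 j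
    rw [Mv, ih]
    rcases le_or_gt x w with h | h
    · rw [lo_cons_le w x l h, up_cons_le w x l h, Mv]
      have : ∑ j, (yc s cap w y1 y2 (x :: l) j - yc s cap w y1 y2 l j) * |x - s j| =
          ∑ j, (y1 (x :: lo w l) j - y1 (lo w l) j) * |x - s j| := by
        refine Finset.sum_congr rfl (fun j _ => ?_)
        rw [e0 j, e1 j, lo_cons_le w x l h, up_cons_le w x l h]
        ring
      rw [this]
      ring
    · rw [lo_cons_lt w x l h, up_cons_lt w x l h, Mv]
      have : ∑ j, (yc s cap w y1 y2 (x :: l) j - yc s cap w y1 y2 l j) * |x - s j| =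
          ∑ j, (y2 (x :: up w l) j - y2 (up w l) j) * |x - s j| := by
        refine Finset.sum_congr rfl (fun j _ => ?_)
        rw [e0 j, e1 j, lo_cons_lt w x l h, up_cons_lt w x l h]
        ring
      rw [this]
      ring

end SplAux

/-- Combining the families of the two sides. -/
theorem splP (h1 : O_SpT) : O_Spl := by
  intro C m s cap p Λ w y1 y2 hC hΛ hgap hf1 hf2 hm1 hm2 hb1 hb2
  refine ⟨SplAux.yc s cap w y1 y2, SplAux.fam s cap w y1 y2 hf1 hf2, ?_, ?_⟩
  · rintro x l ⟨hlen, τ, hr, hcl⟩ j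
    obtain ⟨τ1, τ2, r1, r2, c1, c2, -⟩ := h1 m s cap w Λ (x :: l) τ hgap hr hcl
    have n1 : (lo w (x :: l)).length ≤ ∑ j, capL s cap w j := by
      rw [c1.length_eq]
      exact SplAux.length_le _ _ r1
    have n2 : (up w (x :: l)).length ≤ ∑ j, capR s cap w j := by
      rw [c2.length_eq]
      exact SplAux.length_le _ _ r2
    have g1 : (lo w l).length ≤ ∑ j, capL s cap w j := (SplAux.lo_len_cons w x l).trans n1
    have g2 : (up w l).length ≤ ∑ j, capR s cap w j := (SplAux.up_len_cons w x l).trans n2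
    rw [SplAux.yc_pos s cap w y1 y2 l g1 g2 j, SplAux.yc_pos s cap w y1 y2 (x :: l) n1 n2 j]
    have hs := SplAux.len_split w (x :: l)
    rcases le_or_gt x w with h | h
    · rw [SplAux.lo_cons_le w x l h] at c1 hs ⊢
      rw [SplAux.up_cons_le w x l h] at hs ⊢
      have := hm1 x (lo w l) ⟨by omega, τ1, r1, c1⟩ j
      linarith
    · rw [SplAux.up_cons_lt w x l h] at c2 hs ⊢
      rw [SplAux.lo_cons_lt w x l h] at hs ⊢
      have := hm2 x (up w l) ⟨by omega, τ2, r2, c2⟩ j
      linarith
  · intro l τ hlen hr hcl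
    obtain ⟨τ1, τ2, r1, r2, c1, c2, hcost⟩ := h1 m s cap w Λ l τ hgap hr hcl
    have n1 : (lo w l).length ≤ ∑ j, capL s cap w j := by
      rw [c1.length_eq]
      exact SplAux.length_le _ _ r1
    have n2 : (up w l).length ≤ ∑ j, capR s cap w j := by
      rw [c2.length_eq]
      exact SplAux.length_le _ _ r2
    have hs := SplAux.len_split w l
    have b1 := hb1 (lo w l) τ1 (by omega) r1 c1
    have b2 := hb2 (up w l) τ2 (by omega) r2 c2
    rw [SplAux.mv s cap w y1 y2 l n1 n2, hcost]
    have e : (l.length : ℝ) = ((lo w l).length : ℝ) + ((up w l).length : ℝ) := by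
      rw [← hs]
      push_cast
      ring
    rw [e]
    calc Mv s y1 (lo w l) + Mv s y2 (up w l)
        ≤ C * Real.sqrt (p + 1) * (cost s (lo w l) τ1 + Λ / 2 ^ p * (lo w l).length) +
          C * Real.sqrt (p + 1) * (cost s (up w l) τ2 + Λ / 2 ^ p * (up w l).length) :=
          add_le_add b1 b2
      _ = _ := by ring

end Pool.Agent.MP_a4c1f4_lc.SO
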