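import Mathlib
import Pool.Agent.Lib.MP_a4c1f4_lc.Dbl.LDefs

set_option autoImplicit false
set_option linter.all false

/-!
Online matching on the line with the ratio `O(√(log n))`: definitions of the outer part, and the
interface `Core` to the analysis on a path with unit edges. Lists of requests are written with the
most recent request first.
-/

namespace Pool.Agent.MP_a4c1f4_lc.SO

open Finset MeasureTheory
open Pool.Agent.MP_a4c1f4_lc.Dbl.L (assigned cost Respects)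

/-- Path with the nodes `0, ..., E` and unit edges: the flow to the right over the edge
`(k, k + 1)`, for the used masses `u` and the requests `l`. -/
noncomputable def fl (u : ℕ → ℝ) (l : List ℕ) (k : ℕ) : ℝ :=
  ∑ x ∈ range (k + 1), ((l.count x : ℝ) - u x)

/-- The cost of the fractional online assignment `a` (`a l x` is the mass used at the node `x` after
the requests `l`). -/
noncomputable def mvN (E : ℕ) (a : List ℕ → ℕ → ℝ) : List ℕ → ℝ
  | [] => 0
  | v :: l => mvN E a l + ∑ x ∈ range (E + 1), (a (v :: l) x - a l x) * |(x : ℝ) - (v : ℝ)|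

/-- The core: a fractional online assignment on a path. -/
def Core : Prop := ∃ C : ℝ, 0 < C ∧ ∀ (E D K n0 : ℕ) (c : ℕ → ℕ) (b0 : ℝ), 0 < b0 → 1 ≤ D →
  D ≤ 2 ^ K → 1 ≤ K → (∀ x, x + D ≤ E + 1 → n0 ≤ ∑ y ∈ Ico x (x + D), c y) →
  ∃ a : List ℕ → ℕ → ℝ, (∀ x, a [] x = 0) ∧
  ∀ l : List ℕ, (∀ v, v ∈ l → v ≤ E) → l.length ≤ n0 → l.length ≤ ∑ x ∈ range (E + 1), c x →
    (∀ x, x ≤ E → 0 ≤ a l x ∧ a l x ≤ c x) ∧
    ∑ x ∈ range (E + 1), a l x = l.length ∧
    (∀ v l', l = v :: l' → ∀ x, x ≤ E → a l' x ≤ a l x) ∧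
    ∀ u : ℕ → ℝ, (∀ x, x ≤ E → 0 ≤ u x ∧ u x ≤ c x) → ∑ x ∈ range (E + 1), u x = l.length →
      mvN E a l ≤ C * Real.sqrt K * (∑ k ∈ range E, |fl u l k| + b0 * E)

/-- Real line, sites `s`: the mass of `y` at most `z` minus the number of the requests at most
`z`. -/
noncomputable def dl {m : ℕ} (s : Fin m → ℝ) (y : Fin m → ℝ) (l : List ℝ) (z : ℝ) : ℝ :=
  (∑ j, if s j ≤ z then y j else 0) - (l.map (fun x => if x ≤ z then (1 : ℝ) else 0)).sum

/-- The movement of the fractional solutions `y l`. -/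
noncomputable def Mov {m : ℕ} (s : Fin m → ℝ) (y : List ℝ → Fin m → ℝ) : List ℝ → ℝ
  | [] => 0
  | x :: l => Mov s y l + ∫ z, |dl s (y (x :: l)) (x :: l) z - dl s (y l) l z|

/-- The cost of a fractional online assignment (used for monotone `y`). -/
noncomputable def Mv {m : ℕ} (s : Fin m → ℝ) (y : List ℝ → Fin m → ℝ) : List ℝ → ℝ
  | [] => 0
  | x :: l => Mv s y l + ∑ j, (y (x :: l) j - y l j) * |x - s j|

/-- A family of fractional solutions. -/
def Fam {m : ℕ} (cap : Fin m → ℕ) (y : List ℝ → Fin m → ℝ) : Prop :=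
  (∀ j, y [] j = 0) ∧ ∀ l : List ℝ, l.length ≤ ∑ j, cap j →
    (∀ j, 0 ≤ y l j ∧ y l j ≤ cap j) ∧ ∑ j, y l j = l.length

/-- The requests `l` are served by the sites `τ` at distances at most `Λ`. -/
def Close {m : ℕ} (s : Fin m → ℝ) (Λ : ℝ) (l : List ℝ) (τ : List (Fin m)) : Prop :=
  List.Forall₂ (fun x j => |x - s j| ≤ Λ) l τ

/-- At most `n0` requests, which can be served at distances at most `Λ`. -/
def Good {m : ℕ} (s : Fin m → ℝ) (cap : Fin m → ℕ) (Λ : ℝ) (n0 : ℕ) (l : List ℝ) : Prop :=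
  l.length ≤ n0 ∧ ∃ τ : List (Fin m), Respects cap τ ∧ Close s Λ l τ

/-- The rounding: a family of fractional solutions gives a randomized online algorithm. -/
def Rnd : Prop := ∀ (m : ℕ) (hm : 0 < m) (s : Fin m → ℝ) (cap : Fin m → ℕ)
  (y : List ℝ → Fin m → ℝ), Fam cap y →
  ∃ (Ω : Type) (_ : MeasurableSpace Ω) (μ : Measure Ω) (_ : IsProbabilityMeasure μ)
    (A : Ω → ℝ → List ℝ → Fin m),
    (∀ x l, Measurable (fun ω => A ω x l)) ∧
    (∀ ω l, l.length ≤ ∑ j, cap j → Respects cap (assigned (A ω) l)) ∧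
    ∀ l : List ℝ, l.length ≤ ∑ j, cap j → ∫ ω, cost s l (assigned (A ω) l) ∂μ ≤ Mov s y l

/-- The theorem. -/
def Final : Prop := ∃ C : ℝ, 0 < C ∧ ∀ (m : ℕ) (hm : 0 < m) (s : Fin m → ℝ) (cap : Fin m → ℕ),
  ∃ (Ω : Type) (_ : MeasurableSpace Ω) (μ : Measure Ω) (_ : IsProbabilityMeasure μ)
    (A : Ω → ℝ → List ℝ → Fin m),
    (∀ x l, Measurable (fun ω => A ω x l)) ∧
    (∀ ω l, l.length ≤ ∑ j, cap j → Respects cap (assigned (A ω) l)) ∧
    ∀ (l : List ℝ) (τ : List (Fin m)), τ.length = l.length → Respects cap τ →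
      ∫ ω, cost s l (assigned (A ω) l) ∂μ ≤
        C * Real.sqrt (Real.log (l.length + 1)) * cost s l τ

end Pool.Agent.MP_a4c1f4_lc.SO
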