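import Mathlib
import Pool.Agent.Lib.MP_a4c1f4_lc.Dbl.LDefs
import Pool.Agent.Lib.MP_a4c1f4_lc.SO.Defs

set_option autoImplicit false
set_option linter.all false

/-!
Online matching on the line with the ratio `O(√(log n))`: the outer part. Statements, each with its
proof in words. Lists of requests are written with the most recent request first.
-/

namespace Pool.Agent.MP_a4c1f4_lc.SO

open Finset MeasureTheory
open Pool.Agent.MP_a4c1f4_lc.Dbl.L (assigned cost Respects)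

/-! ## One guess `Λ`, `2 ^ p` -/

/-- One guess. `Λ` bounds the distances of the offline assignment, `2 ^ p` the number of the
requests. -/
def O_One : Prop := ∃ C : ℝ, 0 < C ∧ ∀ (m : ℕ) (s : Fin m → ℝ) (cap : Fin m → ℕ) (p : ℕ) (Λ : ℝ),
  0 < Λ → ∃ y : List ℝ → Fin m → ℝ, Fam cap y ∧
    (∀ x l, Good s cap Λ (2 ^ p) (x :: l) → ∀ j, y l j ≤ y (x :: l) j) ∧
    ∀ (l : List ℝ) (τ : List (Fin m)), l.length ≤ 2 ^ p → Respects cap τ → Close s Λ l τ →
      Mv s y l ≤ C * Real.sqrt (p + 1) * (cost s l τ + Λ / 2 ^ p * l.length)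

/-- There is no big gap. -/
def NG {m : ℕ} (s : Fin m → ℝ) (cap : Fin m → ℕ) (Λ : ℝ) : Prop :=
  ∀ w : ℝ, (∃ i, 0 < cap i ∧ s i < w) → (∃ j, 0 < cap j ∧ w < s j) →
    ∃ j, 0 < cap j ∧ |s j - w| ≤ Λ

/-- The number of the cell (of length `η`) of `x`, relative to the cell `z0`. -/
noncomputable def nd (η : ℝ) (z0 : ℤ) (x : ℝ) : ℕ := (⌊x / η⌋ - z0).toNat

/-- The capacity of the node `k`. -/
noncomputable def cc {m : ℕ} (s : Fin m → ℝ) (cap : Fin m → ℕ) (η : ℝ) (z0 : ℤ) (k : ℕ) : ℕ :=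
  ∑ j ∈ univ.filter (fun j => nd η z0 (s j) = k), cap j

/-- Without big gaps every window of `4 ^ (p + 1)` cells has a large capacity. PROOF. `η = Λ / n0`,
`n0 = 2 ^ p`, `D = 4 * n0 ^ 2 ≥ 2 n0 (n0 + 1)`. Let `a = η (z0 + x)` be the left end of the window and
`w t = a + (2 t + 1) (Λ + η)` for `t < n0`. A site with positive capacity of the node `0` is
`< η (z0 + 1) ≤ a + η < w t`; one of the node `E` is `≥ η (z0 + E) ≥ η (z0 + x + D - 1) > w t`, since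
`w t ≤ a + (2 n0 - 1) (Λ + η) = a + 2 η n0 (n0 + 1) - (Λ + η) ≤ a + η D - Λ - η`. By `NG` there is `j t`
with `0 < cap (j t)`, `|s (j t) - w t| ≤ Λ`, so `a + η ≤ s (j t) ≤ a + η D - η`: its node is in
`Ico x (x + D)`. The `j t` are different (`w (t+1) - w t > 2 Λ`). So the sum over the window of `cc` is at
least `∑_t cap (j t) ≥ n0`. -/
def O_Nod : Prop := ∀ (m : ℕ) (s : Fin m → ℝ) (cap : Fin m → ℕ) (p : ℕ) (Λ : ℝ) (z0 : ℤ) (E : ℕ),
  0 < Λ → NG s cap Λ → (∀ j, 0 < cap j → z0 ≤ ⌊s j / (Λ / 2 ^ p)⌋) →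
  (∃ j, 0 < cap j ∧ ⌊s j / (Λ / 2 ^ p)⌋ = z0) → (∃ j, 0 < cap j ∧ ⌊s j / (Λ / 2 ^ p)⌋ = z0 + E) →
  ∀ x, x + 4 ^ (p + 1) ≤ E + 1 →
    2 ^ p ≤ ∑ k ∈ Ico x (x + 4 ^ (p + 1)), cc s cap (Λ / 2 ^ p) z0 k

/-- The offline flow on the path. PROOF. Induction on the two lists: `u` for `j :: τ` is `u` for `τ` plus
the indicator of the node `t j`, so `fl` changes by `1 [v ≤ k] - 1 [t j ≤ k]`, whose absolute values
sum up to `|v - t j|` (all nodes are `≤ E`). -/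
def O_Off : Prop := ∀ (m E : ℕ) (t : Fin m → ℕ) (l : List ℕ) (τ : List (Fin m)),
  (∀ j, j ∈ τ → t j ≤ E) → (∀ v, v ∈ l → v ≤ E) → τ.length = l.length →
  ∑ k ∈ range E, |fl (fun x => (τ.countP (fun j => decide (t j = x)) : ℝ)) l k| ≤
    (List.zipWith (fun v j => |(v : ℝ) - (t j : ℝ)|) l τ).sum

/-- Cells. PROOF. `x / η - 1 < ⌊x / η⌋ ≤ x / η`; `toNat` of nonnegative integers. -/
def O_Cel : Prop := ∀ (η : ℝ) (z0 : ℤ) (x y : ℝ), 0 < η → z0 ≤ ⌊x / η⌋ → z0 ≤ ⌊y / η⌋ →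
  |(nd η z0 x : ℝ) - (nd η z0 y : ℝ)| ≤ |x - y| / η + 1 ∧
  |x - y| ≤ η * (|(nd η z0 x : ℝ) - (nd η z0 y : ℝ)| + 1) ∧
  ∀ E : ℕ, ⌊x / η⌋ ≤ z0 + E → nd η z0 x ≤ E

/-- The share of the site `j` in the mass `a k` of its node. -/
noncomputable def sh {m : ℕ} (s : Fin m → ℝ) (cap : Fin m → ℕ) (η : ℝ) (z0 : ℤ) (a : ℕ → ℝ)
    (j : Fin m) : ℝ := a (nd η z0 (s j)) * cap j / cc s cap η z0 (nd η z0 (s j))

/-- The shares. PROOF. `cap j ≤ cc (nd (s j))`. The sum over the sites of the node `k` is `a k`: clear if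
`0 < cc k`; if `cc k = 0` then `a k = 0` and all terms are `0`. (2): group the sites by their nodes
(`Finset.sum_fiberwise_of_maps_to`; sites with `cap j = 0` contribute `0` and may have any node).
(3): the terms are nonnegative multiples. -/
def O_Shr : Prop := ∀ (m : ℕ) (s : Fin m → ℝ) (cap : Fin m → ℕ) (η : ℝ) (z0 : ℤ) (E : ℕ),
  (∀ j, 0 < cap j → nd η z0 (s j) ≤ E) →
  (∀ a : ℕ → ℝ, (∀ k, k ≤ E → 0 ≤ a k ∧ a k ≤ cc s cap η z0 k) →
    (∀ j, 0 ≤ sh s cap η z0 a j ∧ sh s cap η z0 a j ≤ cap j) ∧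
    ∀ g : ℕ → ℝ, ∑ j, sh s cap η z0 a j * g (nd η z0 (s j)) = ∑ k ∈ range (E + 1), a k * g k) ∧
  (∀ a a' : ℕ → ℝ, (∀ k, k ≤ E → a k ≤ a' k) → ∀ j, sh s cap η z0 a j ≤ sh s cap η z0 a' j) ∧
  ∑ k ∈ range (E + 1), cc s cap η z0 k = ∑ j, cap j

/-- The case without big gaps. PROOF (use `O_Cel`, `O_Shr`, `y l = sh s cap η z0 (a (l.map vn))`). `C' = 2 √2 C + 1`, `C` from `Core`. If all capacities are `0`:
`y = 0`. Else let `η = Λ / 2^p`, `z0` and `z0 + E` the least and the largest cell of the sites with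
positive capacity, `near x` a site with positive capacity nearest to `x`, `vn x = nd η z0 (s (near x))
≤ E`, `c = cc s cap η z0`, `D = 4^(p+1) = 2^(2p+2)`, `K = 2 p + 2`, `b0 = 1 / (E + 1)`, `n0 = 2^p`;
`O_Nod`; `a` from `Core` (`b0 E ≤ 1 ≤ l.length` for `l ≠ []`). For `l.length ≤ 2^p`: `y l j = a (l.map vn) k * cap j / c k` with `k = nd η z0 (s j)` (if
`cap j = 0`: `0`); else `y l j = l.length * cap j / ∑ cap`. `Fam`: `∑_{k ≤ E} c k = ∑ cap`, the sum over the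
sites of one cell is `a k` (`a k ≤ c k`, so `a k = 0` if `c k = 0`). Monotone: `Core`. Cost of one
request: for `j` of the cell `k`: `|x - s j| ≤ |x - s (near x)| + |s (near x) - s j| ≤ |x - s (near x)| +
η (|k - vn x| + 1)`, the increments are nonnegative with the sum `1`, so the cost is at most
`|x - s (near x)| + η + η * (the step of mvN)`. Sum: `Mv s y l ≤ η mvN E a (l.map vn) + η l.length +
cost s l τ`, since `|x - s (near x)| ≤ |x - s j|` for all `j` with positive capacity. `Core` with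
`u x = τ.countP (nd (s j) = x)` and `O_Off`: `∑ |fl| ≤ ∑ |vn x - nd (s j)| ≤ ∑ (|s (near x) - s j| / η + 1) ≤
2 cost / η + l.length`. So `Mv ≤ η C √(2p+2) (2 cost / η + 2 l.length) + η l.length + cost`. -/
def O_Base : Prop := ∃ C : ℝ, 0 < C ∧ ∀ (m : ℕ) (s : Fin m → ℝ) (cap : Fin m → ℕ) (p : ℕ) (Λ : ℝ),
  0 < Λ → NG s cap Λ → ∃ y : List ℝ → Fin m → ℝ, Fam cap y ∧
    (∀ x l, Good s cap Λ (2 ^ p) (x :: l) → ∀ j, y l j ≤ y (x :: l) j) ∧
    ∀ (l : List ℝ) (τ : List (Fin m)), l.length ≤ 2 ^ p → Respects cap τ → Close s Λ l τ →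
      Mv s y l ≤ C * Real.sqrt (p + 1) * (cost s l τ + Λ / 2 ^ p * l.length)

/-- The requests on the two sides of `w`. -/
noncomputable def lo (w : ℝ) (l : List ℝ) : List ℝ := l.filter (fun x => decide (x ≤ w))
noncomputable def up (w : ℝ) (l : List ℝ) : List ℝ := l.filter (fun x => decide (w < x))

/-- The capacities on the two sides of `w`. -/
noncomputable def capL {m : ℕ} (s : Fin m → ℝ) (cap : Fin m → ℕ) (w : ℝ) (j : Fin m) : ℕ :=
  if s j ≤ w then cap j else 0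
noncomputable def capR {m : ℕ} (s : Fin m → ℝ) (cap : Fin m → ℕ) (w : ℝ) (j : Fin m) : ℕ :=
  if w < s j then cap j else 0

/-- Splitting an assignment at a big gap. PROOF. Induction on `Forall₂`: a request `x` served by `j`
with `|x - s j| ≤ Λ` and `0 < cap j` (`j ∈ τ` and `Respects`) satisfies `x ≤ w ↔ s j ≤ w`. `τ1`, `τ2` = the
parts of `τ` with `s j ≤ w`, `w < s j`. (First state and prove it without `Respects`, with the
hypothesis `∀ j ∈ τ, s j + Λ < w ∨ w + Λ < s j`.) -/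
def O_SpT : Prop := ∀ (m : ℕ) (s : Fin m → ℝ) (cap : Fin m → ℕ) (w Λ : ℝ) (l : List ℝ)
  (τ : List (Fin m)), (∀ j, 0 < cap j → s j + Λ < w ∨ w + Λ < s j) → Respects cap τ →
  Close s Λ l τ → ∃ τ1 τ2 : List (Fin m), Respects (capL s cap w) τ1 ∧ Respects (capR s cap w) τ2 ∧
    Close s Λ (lo w l) τ1 ∧ Close s Λ (up w l) τ2 ∧
    cost s l τ = cost s (lo w l) τ1 + cost s (up w l) τ2

/-- Combining the families of the two sides. PROOF. `y l = y1 (lo w l) + y2 (up w l)` if both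
`(lo w l).length ≤ ∑ capL` and `(up w l).length ≤ ∑ capR`, else `y l j = l.length * cap j / ∑ cap`. `Fam`:
`capL + capR = cap`, `(lo w l).length + (up w l).length = l.length`. For `Good` lists the first case
holds (`O_SpT`, the length of a list which respects the capacities is at most their sum), also for
all shorter ones. Monotone and `Mv`: for `x ≤ w`, `lo w (x :: l) = x :: lo w l`, `up w (x :: l) = up w l`, so
`Mv s y (x :: l) - Mv s y l` is the step of `Mv s y1` at `x :: lo w l`; by induction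
`Mv s y l = Mv s y1 (lo w l) + Mv s y2 (up w l)`. Then `O_SpT` and the two bounds. -/
def O_Spl : Prop := ∀ (C : ℝ) (m : ℕ) (s : Fin m → ℝ) (cap : Fin m → ℕ) (p : ℕ) (Λ w : ℝ)
  (y1 y2 : List ℝ → Fin m → ℝ), 0 < C → 0 < Λ → (∀ j, 0 < cap j → s j + Λ < w ∨ w + Λ < s j) →
  Fam (capL s cap w) y1 → Fam (capR s cap w) y2 →
  (∀ x l, Good s (capL s cap w) Λ (2 ^ p) (x :: l) → ∀ j, y1 l j ≤ y1 (x :: l) j) →
  (∀ x l, Good s (capR s cap w) Λ (2 ^ p) (x :: l) → ∀ j, y2 l j ≤ y2 (x :: l) j) →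
  (∀ (l : List ℝ) (τ : List (Fin m)), l.length ≤ 2 ^ p → Respects (capL s cap w) τ →
    Close s Λ l τ → Mv s y1 l ≤ C * Real.sqrt (p + 1) * (cost s l τ + Λ / 2 ^ p * l.length)) →
  (∀ (l : List ℝ) (τ : List (Fin m)), l.length ≤ 2 ^ p → Respects (capR s cap w) τ →
    Close s Λ l τ → Mv s y2 l ≤ C * Real.sqrt (p + 1) * (cost s l τ + Λ / 2 ^ p * l.length)) →
  ∃ y : List ℝ → Fin m → ℝ, Fam cap y ∧
    (∀ x l, Good s cap Λ (2 ^ p) (x :: l) → ∀ j, y l j ≤ y (x :: l) j) ∧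
    ∀ (l : List ℝ) (τ : List (Fin m)), l.length ≤ 2 ^ p → Respects cap τ → Close s Λ l τ →
      Mv s y l ≤ C * Real.sqrt (p + 1) * (cost s l τ + Λ / 2 ^ p * l.length)

/-- PROOF of `O_One` from `O_Base` and `O_Spl`: strong induction on the number of the sites with
positive capacity: if `NG` fails there is `w` with sites on both sides and
`∀ j, 0 < cap j → Λ < |s j - w|`; both `capL` and `capR` have fewer sites of positive capacity. -/
def O_OneP : Prop := O_Base → O_Spl → O_One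

/-! ## Movement -/

/-- Integrability and triangle inequalities. PROOF. `dl s y l` is a finite linear combination of the
functions `z ↦ 1 [c ≤ z]`. (1) If `∑ y = l.length` it vanishes for large and for small `z`
(`-∞` side: no `s j ≤ z`), so it is bounded, measurable with bounded support. (2) induction on `l`:
`dl s 0 [] = 0`. (3) `dl s (y (x::l)) (x::l) z - dl s (y l) l z = ∑_j (y (x::l) j - y l j) (1 [s j ≤ z] -
1 [x ≤ z])`, as the sum of the increments is `1`, and `∫ |1 [s j ≤ z] - 1 [x ≤ z]| = |x - s j|`. (4) If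
`cost s l τ = 0` every request is equal to the position of its site, so both sums agree. -/
def O_Mov : Prop := ∀ (m : ℕ) (s : Fin m → ℝ) (cap : Fin m → ℕ),
  (∀ (y : Fin m → ℝ) (l : List ℝ), ∑ j, y j = l.length → Integrable (dl s y l)) ∧
  (∀ (y : List ℝ → Fin m → ℝ) (l : List ℝ), Fam cap y → l.length ≤ ∑ j, cap j →
    ∫ z, |dl s (y l) l z| ≤ Mov s y l ∧ 0 ≤ Mov s y l) ∧
  (∀ (y : List ℝ → Fin m → ℝ) (x : ℝ) (l : List ℝ), Fam cap y → (x :: l).length ≤ ∑ j, cap j →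
    (∀ j, y l j ≤ y (x :: l) j) →
    ∫ z, |dl s (y (x :: l)) (x :: l) z - dl s (y l) l z| ≤
      ∑ j, (y (x :: l) j - y l j) * |x - s j|) ∧
  (∀ (l : List ℝ) (τ : List (Fin m)), τ.length = l.length → cost s l τ = 0 →
    ∀ z, dl s (fun j => (τ.count j : ℝ)) l z = 0)

/-! ## All guesses -/

/-- The optimal offline cost. -/
noncomputable def opt {m : ℕ} (s : Fin m → ℝ) (cap : Fin m → ℕ) (l : List ℝ) : ℝ :=
  sInf {c : ℝ | ∃ τ : List (Fin m), τ.length = l.length ∧ Respects cap τ ∧ cost s l τ = c}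

/-- PROOF. The set of the lists `τ` of length `l.length` is finite (`List.finite_length_eq`), and there
is one which respects the capacities if `l.length ≤ ∑ cap`. So the infimum is attained. (3): delete
the head of an optimal list for `x :: l`. (4): in a list of nonnegative numbers each one is at most
the sum. -/
def O_Opt : Prop := ∀ (m : ℕ) (s : Fin m → ℝ) (cap : Fin m → ℕ),
  (∀ l : List ℝ, l.length ≤ ∑ j, cap j →
    ∃ τ : List (Fin m), τ.length = l.length ∧ Respects cap τ ∧ cost s l τ = opt s cap l) ∧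
  (∀ (l : List ℝ) (τ : List (Fin m)), τ.length = l.length → Respects cap τ →
    l.length ≤ ∑ j, cap j ∧ 0 ≤ opt s cap l ∧ opt s cap l ≤ cost s l τ) ∧
  (∀ (x : ℝ) (l : List ℝ), (x :: l).length ≤ ∑ j, cap j → opt s cap l ≤ opt s cap (x :: l)) ∧
  (∀ (l : List ℝ) (τ : List (Fin m)) (Λ : ℝ), τ.length = l.length → cost s l τ ≤ Λ →
    Close s Λ l τ)

/-- The guess for the number of the requests: the least `j` with `n ≤ 2 ^ (4 ^ j)`. -/
noncomputable def gj (n : ℕ) : ℕ := sInf {j : ℕ | n ≤ 2 ^ (4 ^ j)}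

/-- The guess for the optimal cost. -/
noncomputable def gi (o : ℝ) : ℤ := Int.clog 2 o

/-- Numbers. PROOF. `Int.self_le_zpow_clog`, `Int.zpow_pred_clog_lt_self`, `Int.clog_mono_right`. For
`j = gj n ≥ 1`: `2 ^ (4 ^ (j - 1)) < n`, so `4 ^ (j - 1) log 2 < log n` and `2 ^ j = 2 √(4 ^ (j-1)) ≤
2 √(log (n + 1) / log 2) ≤ 3 √(log (n+1))`; for `j = 0`: `1 ≤ 3 √(log 2)`. -/
def O_Gss : Prop :=
  (∀ n : ℕ, n ≤ 2 ^ (4 ^ gj n)) ∧ (∀ n n' : ℕ, n ≤ n' → gj n ≤ gj n') ∧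
  (∀ n : ℕ, 1 ≤ n → (2 : ℝ) ^ gj n ≤ 3 * Real.sqrt (Real.log (n + 1))) ∧
  (∀ o : ℝ, 0 < o → o ≤ (2 : ℝ) ^ gi o ∧ (2 : ℝ) ^ gi o ≤ 2 * o) ∧
  (∀ o o' : ℝ, 0 < o → o ≤ o' → gi o ≤ gi o')

/-- The bound for the guess `(i, j)`. -/
noncomputable def Bd (C : ℝ) (i : ℤ) (j : ℕ) : ℝ := C * (2 : ℝ) ^ j * (2 : ℝ) ^ i

/-- Following the guesses. PROOF. `y l = Y (gi (opt l)) (gj l.length) l` if `0 < opt l`; if `opt l = 0`,
`y l j = τ.count j` with an optimal `τ` (`O_Opt`). `Fam`: clear (`y [] = 0`: `τ = []`). Claim, by induction on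
`l` (`l.length ≤ ∑ cap`): `Mov s y l = 0` if `opt l = 0`, and else
`Mov s y l ≤ Mov s (Y i j) l + 2 Bd C i j` with `i = gi (opt l)`, `j = gj l.length`. Step `x :: l`: (a)
`opt (x :: l) = 0`: `opt l = 0`, both `dl` vanish (`O_Mov` (4)). (b) `opt l = 0 < opt (x :: l)`: the new term is
`∫ |dl (Y i' j' (x :: l)) (x :: l)| ≤ Mov s (Y i' j') (x :: l)` (`O_Mov` (2)). (c) same guess: both sides grow by
the same term. (d) the guess changes: `i ≤ i'`, `j ≤ j'` and not both equal, so `2 Bd C i j ≤ Bd C i' j'`; the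
new term is at most `Mov s (Y i' j') (x :: l) + Mov s (Y i j) l` (`O_Mov` (1), (2)) and
`Mov s (Y i j) l ≤ Bd C i j`; so `Mov s y (x :: l) ≤ 2 Mov s (Y i j) l + 2 Bd C i j + Mov s (Y i' j') (x :: l) ≤
4 Bd C i j + .. ≤ 2 Bd C i' j' + ..`. Finally `Mov s y l ≤ 3 Bd C i j`. -/
def O_Cmb : Prop := ∀ (C : ℝ) (m : ℕ) (s : Fin m → ℝ) (cap : Fin m → ℕ)
  (Y : ℤ → ℕ → List ℝ → Fin m → ℝ), 0 < C → (∀ i j, Fam cap (Y i j)) →
  (∀ i j l, l.length ≤ ∑ j, cap j → l.length ≤ 2 ^ (4 ^ j) → opt s cap l ≤ (2 : ℝ) ^ i →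
    Mov s (Y i j) l ≤ Bd C i j) →
  ∃ y : List ℝ → Fin m → ℝ, Fam cap y ∧ ∀ l : List ℝ, l.length ≤ ∑ j, cap j →
    (opt s cap l = 0 → Mov s y l = 0) ∧
    (0 < opt s cap l → Mov s y l ≤ 3 * Bd C (gi (opt s cap l)) (gj l.length))

/-- Fractional solutions with the ratio `O(√(log n))`. -/
def O_Frac : Prop := ∃ C : ℝ, 0 < C ∧ ∀ (m : ℕ) (s : Fin m → ℝ) (cap : Fin m → ℕ),
  ∃ y : List ℝ → Fin m → ℝ, Fam cap y ∧
    ∀ (l : List ℝ) (τ : List (Fin m)), τ.length = l.length → Respects cap τ →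
      Mov s y l ≤ C * Real.sqrt (Real.log (l.length + 1)) * cost s l τ

/-- PROOF of `O_Frac`. `C` from `O_One`, `Y i j` = the family of `O_One` for `p = 4 ^ j`, `Λ = 2 ^ i`. If
`l.length ≤ 2 ^ p` and `opt l ≤ Λ`, take an optimal `τ` (`O_Opt`), `Close s Λ l τ`, so `l` and all its tails are
`Good` and `Y i j` is monotone along `l`: `Mov s (Y i j) l ≤ Mv s (Y i j) l` (`O_Mov` (3)) `≤
C √(p + 1) (Λ + Λ) ≤ 2 √2 C 2 ^ j Λ = Bd (2 √2 C) i j` (`√(4 ^ j + 1) ≤ √2 2 ^ j`). `O_Cmb`, `O_Gss`: for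
`0 < opt l` (so `1 ≤ l.length`): `Mov s y l ≤ 3 Bd ≤ 3 * 2 √2 C * 3 √(log (n+1)) * 2 opt l`. -/
def O_FracP : Prop := O_One → O_Mov → O_Opt → O_Gss → O_Cmb → O_Frac

/-- PROOF of `Final` from `O_Frac` and `Rnd`: `τ` respects the capacities, so `l.length ≤ ∑ cap`. -/
def O_FinP : Prop := O_Frac → Rnd → Final

end Pool.Agent.MP_a4c1f4_lc.SO
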