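import Pool.Agent.Lib.MP_a4c1f4_lc.SO.Spec

set_option autoImplicit false
set_option linter.all false

/-!
Online matching on the line: the final statement from the fractional solutions and the rounding.
-/

namespace Pool.Agent.MP_a4c1f4_lc.SO

open Finset MeasureTheory
open Pool.Agent.MP_a4c1f4_lc.Dbl.L (assigned cost Respects)

namespace FinAux

theorem length_eq {m : ℕ} (τ : List (Fin m)) : ∑ j, τ.count j = τ.length := by
  induction τ with
  | nil => simp
  | cons a τ ih =>
    rw [List.length_cons, ← ih]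
    have h : ∀ j : Fin m, (a :: τ).count j = τ.count j + if j = a then 1 else 0 := by
      intro j
      rw [List.count_cons]
      by_cases hj : j = a
      · simp [hj]
      · have hj' : ¬ a = j := fun h => hj h.symm
        simp [hj, hj']
    rw [Finset.sum_congr rfl fun j _ => h j, Finset.sum_add_distrib, Finset.sum_ite_eq']
    simp

end FinAux

theorem finP : O_FinP := by
  rintro ⟨C, hC, hF⟩ hR
  refine ⟨C, hC, ?_⟩
  intro m hm s cap
  obtain ⟨y, hy, hb⟩ := hF m s cap
  obtain ⟨Ω, mΩ, μ, hμ, A, hA, hRe, hc⟩ := hR m hm s cap y hy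
  refine ⟨Ω, mΩ, μ, hμ, A, hA, hRe, ?_⟩
  intro l τ hτ hcap
  have hlen : l.length ≤ ∑ j, cap j := by
    rw [← hτ, ← FinAux.length_eq τ]
    exact Finset.sum_le_sum fun j _ => hcap j
  exact (hc l hlen).trans (hb l τ hτ hcap)

end Pool.Agent.MP_a4c1f4_lc.SO
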