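import Pool.Agent.Lib.MP_a4c1f4_lc.SO.Spec

set_option autoImplicit false

/-!
# One guess: induction over the big gaps
-/

namespace Pool.Agent.MP_a4c1f4_lc.SO

open Finset MeasureTheory
open Pool.Agent.MP_a4c1f4_lc.Dbl.L (assigned cost Respects)

namespace OneAux

/-- The sites with positive capacity. -/
def ps {m : ℕ} (cap : Fin m → ℕ) : Finset (Fin m) := univ.filter (fun j => 0 < cap j)

theorem psL {m : ℕ} (s : Fin m → ℝ) (cap : Fin m → ℕ) (w : ℝ) (j : Fin m) (hj : 0 < cap j)
    (hw : w < s j) : (ps (capL s cap w)).card < (ps cap).card := by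
  apply card_lt_card
  rw [ssubset_iff_of_subset]
  · refine ⟨j, by simp [ps, hj], ?_⟩
    have h : ¬ s j ≤ w := not_le.mpr hw
    simp [ps, capL, h]
  · intro i hi
    have h : 0 < capL s cap w i := by simpa [ps] using hi
    unfold capL at h
    split_ifs at h
    · simpa [ps] using h
    · exact absurd h (lt_irrefl 0)

theorem psR {m : ℕ} (s : Fin m → ℝ) (cap : Fin m → ℕ) (w : ℝ) (i : Fin m) (hi : 0 < cap i)
    (hw : s i < w) : (ps (capR s cap w)).card < (ps cap).card := by
  apply card_lt_card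
  rw [ssubset_iff_of_subset]
  · refine ⟨i, by simp [ps, hi], ?_⟩
    have h : ¬ w < s i := not_lt.mpr hw.le
    simp [ps, capR, h]
  · intro j hj
    have h : 0 < capR s cap w j := by simpa [ps] using hj
    unfold capR at h
    split_ifs at h
    · simpa [ps] using h
    · exact absurd h (lt_irrefl 0)

end OneAux

open OneAux in
theorem oneP : O_OneP := by
  rintro ⟨C, hC, hB⟩ hS
  refine ⟨C, hC, ?_⟩
  intro m s cap p Λ hΛ
  have main : ∀ (N : ℕ) (cap : Fin m → ℕ), (ps cap).card < N →
      ∃ y : List ℝ → Fin m → ℝ, Fam cap y ∧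
      (∀ x l, Good s cap Λ (2 ^ p) (x :: l) → ∀ j, y l j ≤ y (x :: l) j) ∧
      ∀ (l : List ℝ) (τ : List (Fin m)), l.length ≤ 2 ^ p → Respects cap τ → Close s Λ l τ →
        Mv s y l ≤ C * Real.sqrt (p + 1) * (cost s l τ + Λ / 2 ^ p * l.length) := by
    intro N
    induction N with
    | zero => intro cap h; exact absurd h (Nat.not_lt_zero _)
    | succ N ih =>
      intro cap hN
      by_cases hG : NG s cap Λ
      · exact hB m s cap p Λ hΛ hG
      · unfold NG at hG
        push Not at hG
        obtain ⟨w, ⟨i, hi, hiw⟩, ⟨j, hj, hjw⟩, h⟩ := hG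
        obtain ⟨y1, f1, m1, b1⟩ := ih (capL s cap w)
          (lt_of_lt_of_le (psL s cap w j hj hjw) (Nat.lt_succ_iff.mp hN))
        obtain ⟨y2, f2, m2, b2⟩ := ih (capR s cap w)
          (lt_of_lt_of_le (psR s cap w i hi hiw) (Nat.lt_succ_iff.mp hN))
        refine hS C m s cap p Λ w y1 y2 hC hΛ ?_ f1 f2 m1 m2 b1 b2
        intro k hk
        have hk' := h k hk
        rcases lt_abs.mp hk' with h1 | h1
        · right; linarith
        · left; linarith
  exact main _ cap (Nat.lt_succ_self _)

end Pool.Agent.MP_a4c1f4_lc.SO
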